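import Pool.Agent.K4H33.SQ.Quartic

/-! Galois theory of `K ⊔ k ⊔ k'` over the real quadratic field `F`, and the unit `η`. -/

set_option autoImplicit false
set_option linter.style.haveILetI false

namespace Pool.Agent.W2helper58.SR
open NumberField Module IntermediateField Pool.Agent.K4H33.SK Pool.Agent.K4H33.SQ
open Pool.Agent.K4H33.SK.Stmt (Sub Ideals nrm Cop prd principal cntAll PrimesOver)

/-- Conjugations, with the real embedding prescribed. -/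
lemma exists_conjW (ι w : Qbar →+* ℂ) {K k : IntermediateField ℚ Qbar}
    (hreal : ∀ x ∈ K, (w x).im = 0) (hk : finrank ℚ k = 2)
    (hN : Normal ℚ ↥(K ⊔ k)) (hι : ∃ x ∈ K, (ι x).im ≠ 0) :
    ∃ c c₀ σ₀ : GQ, ConjData ι K k c c₀ σ₀ ∧
      ((∀ x, w x = ι (σ₀ x)) ∨ ∀ x, w x = (starRingEnd ℂ) (ι (σ₀ x))) := by
  obtain ⟨c, hc⟩ := exists_conj ι
  obtain ⟨σ₁, hσ₁'⟩ := exists_lift ι w
  have hσ₁ : ∀ x ∈ K, (ι (σ₁ x)).im = 0 := fun x hx => by rw [← hσ₁']; exact hreal x hx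
  have hkn := quad_normal hk
  have hcc : c * c = 1 := by
    ext x
    apply ι.injective
    rw [AlgEquiv.mul_apply, hc, hc, Complex.conj_conj, AlgEquiv.one_apply]
  have hcK : ¬ Fixes K c := by
    intro h
    obtain ⟨x, hx, hx2⟩ := hι
    apply hx2
    have h1 := hc x
    rw [h x hx] at h1
    exact Complex.conj_eq_iff_im.1 h1.symm
  set c₀ : GQ := σ₁⁻¹ * c * σ₁ with hc₀
  have hcinv : c⁻¹ = c := inv_eq_of_mul_eq_one_left hcc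
  have hc₀c₀ : c₀ * c₀ = 1 := by
    rw [hc₀]
    calc σ₁⁻¹ * c * σ₁ * (σ₁⁻¹ * c * σ₁) = σ₁⁻¹ * (c * c) * σ₁ := by group
      _ = 1 := by rw [hcc]; group
  have hc₀K : Fixes K c₀ := by
    intro x hx
    rw [hc₀, AlgEquiv.mul_apply, AlgEquiv.mul_apply, AlgEquiv.aut_inv, AlgEquiv.symm_apply_eq]
    apply ι.injective
    rw [hc]
    exact Complex.conj_eq_iff_im.2 (hσ₁ x hx)
  have hcc₀ : c = σ₁ * c₀ * σ₁⁻¹ := by rw [hc₀]; group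
  have hc₀k : ¬ Fixes k c₀ := by
    intro h
    apply hcK
    have h1 : Fixes (K ⊔ k) c₀ := fixes_sup.2 ⟨hc₀K, h⟩
    have h2 := h1.conj hN σ₁
    rw [← hcc₀] at h2
    exact (fixes_sup.1 h2).1
  have hck : ¬ Fixes k c := by
    intro h
    exact hc₀k (h.conj' hkn σ₁)
  have hak : Fixes k (c * c₀) := quad hk hck hc₀k
  have haK : ¬ Fixes K (c * c₀) := by
    intro h
    apply hcK
    have h1 := h.mul hc₀K
    rwa [mul_assoc, hc₀c₀, mul_one] at h1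
  obtain ⟨σ₀, hs1, hs2, hs3⟩ : ∃ σ₀ : GQ, Fixes k σ₀ ∧ σ₀ * c₀ = c * σ₀ ∧
      ((∀ x, w x = ι (σ₀ x)) ∨ ∀ x, w x = (starRingEnd ℂ) (ι (σ₀ x))) := by
    by_cases h : Fixes k σ₁
    · exact ⟨σ₁, h, by rw [hc₀]; group, Or.inl hσ₁'⟩
    · refine ⟨c * σ₁, quad hk hck h, ?_, Or.inr ?_⟩
      · rw [hc₀]
        group
      · intro x
        rw [AlgEquiv.mul_apply, hc, Complex.conj_conj, hσ₁']
  have hsK : ¬ Fixes K σ₀ := by
    intro h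
    apply hcK
    have h1 : c = σ₀ * c₀ * σ₀⁻¹ := by rw [hs2]; group
    rw [h1]
    exact (h.mul hc₀K).mul h.inv
  refine ⟨c, c₀, σ₀, ⟨hc, hs2, hcc, hc₀c₀, hs1, hsK, hc₀K, hc₀k, hak, haK, ?_⟩, hs3⟩
  intro h
  apply hsK
  have h1 : Fixes (K ⊔ k) (σ₀ * (c * c₀)⁻¹) := fixes_sup.2 ⟨h, hs1.mul hak.inv⟩
  have h2 : σ₀ = c⁻¹ * (σ₀ * (c * c₀)⁻¹) * c := by
    have h3 : c₀⁻¹ = c₀ := inv_eq_of_mul_eq_one_left hc₀c₀
    rw [mul_inv_rev, hcinv, h3]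
    calc σ₀ = (c * c) * σ₀ * (c * c) := by rw [hcc]; group
      _ = c * (c * σ₀) * c * c := by group
      _ = c * (σ₀ * c₀) * c * c := by rw [hs2]
      _ = _ := by group
  rw [h2]
  exact (fixes_sup.1 (h1.conj' hN c)).1

/-- Subgroups of index at most two contain the commutators. -/
lemma comm_idx {G : Type*} [Group G] (S P : Subgroup G)
    (h : ∀ σ ∈ S, ∀ τ ∈ S, σ ∉ P → τ ∉ P → σ * τ ∈ P) {σ τ : G} (hσ : σ ∈ S) (hτ : τ ∈ S) :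
    (τ * σ)⁻¹ * (σ * τ) ∈ P := by
  have key : ∀ x ∈ S, ∀ p ∈ S, p ∈ P → x⁻¹ * p * x ∈ P := by
    intro x hx p hp hpP
    by_cases hxP : x ∈ P
    · exact P.mul_mem (P.mul_mem (P.inv_mem hxP) hpP) hxP
    · by_contra hc
      apply hxP
      have h1 : x⁻¹ ∉ P := fun h => hxP (by simpa using P.inv_mem h)
      have h2 := h (x⁻¹ * p * x) (S.mul_mem (S.mul_mem (S.inv_mem hx) hp) hx) x⁻¹ (S.inv_mem hx)
        hc h1
      rw [mul_assoc, mul_inv_cancel, mul_one] at h2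
      have h3 := P.mul_mem h2 (P.inv_mem hpP)
      rw [mul_assoc, mul_inv_cancel, mul_one] at h3
      exact absurd h3 h1
  by_cases h1 : σ ∈ P
  · have e : (τ * σ)⁻¹ * (σ * τ) = σ⁻¹ * (τ⁻¹ * σ * τ) := by group
    rw [e]
    exact P.mul_mem (P.inv_mem h1) (key τ hτ σ hσ h1)
  · by_cases h2 : τ ∈ P
    · have e : (τ * σ)⁻¹ * (σ * τ) = (σ⁻¹ * τ⁻¹ * σ) * τ := by group
      rw [e]
      exact P.mul_mem (key σ hσ _ (S.inv_mem hτ) (P.inv_mem h2)) h2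
    · exact P.mul_mem (P.inv_mem (h τ hτ σ hσ h2 h1)) (h σ hσ τ hτ h1 h2)

section

variable {ι : Qbar →+* ℂ} {F K k k' : IntermediateField ℚ Qbar} {c c₀ σ₀ : GQ}
  {f : ℕ} [NeZero f] {ζ : Qbar}

/-- Elements fixing `F` commute on `K ⊔ k ⊔ k'`. -/
lemma comm_F (hζ : IsPrimitiveRoot ζ f) (hle : F ≤ K) (hF : finrank ℚ F = 2)
    (hK : finrank ℚ K = 4) (hk : finrank ℚ k = 2) (hk' : k' ≤ ℚ⟮ζ⟯) {σ τ : GQ}
    (hσ : Fixes F σ) (hτ : Fixes F τ) : ∀ x ∈ K ⊔ k ⊔ k', σ (τ x) = τ (σ x) := by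
  have h1 : ∀ x ∈ K, (σ * τ) x = (τ * σ) x := by
    rw [agree_iff, fixes_iff]
    refine comm_idx F.fixingSubgroup K.fixingSubgroup ?_ (fixes_iff.1 hσ) (fixes_iff.1 hτ)
    intro a ha b hb haK hbK
    rw [← fixes_iff] at *
    exact quadRel hle hF hK ha hb haK hbK
  have h2 : ∀ x ∈ k, (σ * τ) x = (τ * σ) x := by
    rw [agree_iff, fixes_iff]
    refine comm_idx ⊤ k.fixingSubgroup ?_ (Subgroup.mem_top _) (Subgroup.mem_top _)
    intro a _ b _ haK hbK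
    rw [← fixes_iff] at *
    exact quad hk haK hbK
  have h3 : ∀ x ∈ k', (σ * τ) x = (τ * σ) x := fun x hx => comm_adjoin hζ σ τ x (hk' hx)
  exact agree_sup (agree_sup h1 h2) h3

/-- `K ⊔ k ⊔ k'` is stable under all automorphisms. -/
lemma stable (hζ : IsPrimitiveRoot ζ f) (hN : Normal ℚ ↥(K ⊔ k)) (hk' : k' ≤ ℚ⟮ζ⟯) (g : GQ)
    {x : Qbar} (hx : x ∈ K ⊔ k ⊔ k') : g x ∈ K ⊔ k ⊔ k' := by
  apply mem_of_fixed
  intro σ hσ
  have h1 := fixes_sup.1 hσ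
  have h2 : Fixes (K ⊔ k ⊔ k') (g⁻¹ * σ * g) := by
    refine fixes_sup.2 ⟨h1.1.conj' hN g, fun y hy => ?_⟩
    rw [AlgEquiv.mul_apply, AlgEquiv.mul_apply, AlgEquiv.aut_inv, AlgEquiv.symm_apply_eq,
      comm_adjoin hζ σ g y (hk' hy), h1.2 y hy]
  have h3 := h2 x hx
  rwa [AlgEquiv.mul_apply, AlgEquiv.mul_apply, AlgEquiv.aut_inv, AlgEquiv.symm_apply_eq] at h3

/-- An element all of whose conjugates have absolute value one is a root of unity. -/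
lemma root_of_norm {δ : Qbar} (hi : IsIntegral ℤ δ) (h : ∀ σ : GQ, ‖ι (σ δ)‖ = 1) :
    ∃ n : ℕ, 0 < n ∧ δ ^ n = 1 := by
  have hf : IsIntegral ℚ δ := Algebra.IsIntegral.isIntegral δ
  haveI : FiniteDimensional ℚ ℚ⟮δ⟯ := IntermediateField.adjoin.finiteDimensional hf
  haveI : NumberField ℚ⟮δ⟯ := ⟨⟩
  let x : ℚ⟮δ⟯ := ⟨δ, mem_adjoin_simple_self ℚ δ⟩
  have hxi : IsIntegral ℤ x := by
    have h1 : IsIntegral ℤ (algebraMap ℚ⟮δ⟯ Qbar x) := hi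
    exact (isIntegral_algebraMap_iff (algebraMap ℚ⟮δ⟯ Qbar).injective).1 h1
  obtain ⟨n, hn, hx⟩ := NumberField.Embeddings.pow_eq_one_of_norm_eq_one ℚ⟮δ⟯ ℂ hxi (by
    intro φ
    letI : Algebra ℚ⟮δ⟯ ℂ := φ.toAlgebra
    haveI : Algebra.IsAlgebraic ℚ⟮δ⟯ Qbar :=
      Algebra.IsAlgebraic.tower_top (K := ℚ) ℚ⟮δ⟯
    let w : Qbar →ₐ[ℚ⟮δ⟯] ℂ := IsAlgClosed.lift
    obtain ⟨σ, hσ⟩ := exists_lift ι (w : Qbar →+* ℂ)
    have h1 : φ x = (w : Qbar →+* ℂ) δ := (w.commutes x).symm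
    rw [h1, hσ]
    exact h σ)
  refine ⟨n, hn, ?_⟩
  have h2 := congrArg (algebraMap ℚ⟮δ⟯ Qbar) hx
  rw [map_pow, map_one] at h2
  exact h2

end

end Pool.Agent.W2helper58.SR
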