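import Pool.Agent.W2helper58.SR.Sub

/-! The general case: `M` abelian over the real quadratic field `F` and over the imaginary quadratic
field `k`. Galois theory. -/

set_option autoImplicit false
set_option linter.style.haveILetI false

namespace Pool.Agent.W2helper58.SR
open NumberField Module IntermediateField Pool.Agent.K4H33.SK Pool.Agent.K4H33.SQ
open Pool.Agent.K4H33.SK.Stmt (Sub Ideals nrm Cop prd principal cntAll PrimesOver)

/-- The fields: `F` is a real quadratic field, `k` an imaginary quadratic field, `M` a Galois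
extension of `ℚ` which contains `F` and `k` and is abelian over `F` and over `k`; the embeddings
`ι` and `w` give the two real places of `F`. -/
structure AbelianOverBoth (ι w : Qbar →+* ℂ) (F k M : IntermediateField ℚ Qbar) : Prop where
  deg_F : finrank ℚ F = 2
  deg_k : finrank ℚ k = 2
  real_F : ∀ x ∈ F, (ι x).im = 0
  complex_k : ∃ x ∈ k, (ι x).im ≠ 0
  places : ∃ x ∈ F, w x ≠ ι x
  F_le : F ≤ M
  k_le : k ≤ M
  normal : Normal ℚ M
  abelian_F : ∀ σ τ : GQ, Fixes F σ → Fixes F τ → ∀ x ∈ M, σ (τ x) = τ (σ x)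
  abelian_k : ∀ σ τ : GQ, Fixes k σ → Fixes k τ → ∀ x ∈ M, σ (τ x) = τ (σ x)

/-- Conjugations. -/
structure Cj (ι w : Qbar →+* ℂ) (F k : IntermediateField ℚ Qbar) (c c₀ σ₀ : GQ) : Prop where
  conj : ∀ x, ι (c x) = (starRingEnd ℂ) (ι x)
  rel : σ₀ * c₀ = c * σ₀
  cc : c * c = 1
  cc₀ : c₀ * c₀ = 1
  s_k : Fixes k σ₀
  s_F : ¬ Fixes F σ₀
  c_F : Fixes F c
  c₀_F : Fixes F c₀
  c_k : ¬ Fixes k c
  c₀_k : ¬ Fixes k c₀
  w_eq : (∀ x, w x = ι (σ₀ x)) ∨ ∀ x, w x = (starRingEnd ℂ) (ι (σ₀ x))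

lemma exists_cj {ι w : Qbar →+* ℂ} {F k M : IntermediateField ℚ Qbar}
    (h : AbelianOverBoth ι w F k M) : ∃ c c₀ σ₀ : GQ, Cj ι w F k c c₀ σ₀ := by
  obtain ⟨c, hc⟩ := exists_conj ι
  obtain ⟨σ₁, hσ₁⟩ := exists_lift ι w
  have hFn := quad_normal h.deg_F
  have hkn := quad_normal h.deg_k
  have hcc : c * c = 1 := by
    ext x
    apply ι.injective
    rw [AlgEquiv.mul_apply, hc, hc, Complex.conj_conj, AlgEquiv.one_apply]
  have hcinv : c⁻¹ = c := inv_eq_of_mul_eq_one_left hcc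
  have hck : ¬ Fixes k c := by
    intro h'
    obtain ⟨x, hx, hx2⟩ := h.complex_k
    apply hx2
    have h1 := hc x
    rw [h' x hx] at h1
    exact Complex.conj_eq_iff_im.1 h1.symm
  have hcF : Fixes F c := by
    intro x hx
    apply ι.injective
    rw [hc]
    exact Complex.conj_eq_iff_im.2 (h.real_F x hx)
  have hs1F : ¬ Fixes F σ₁ := by
    intro h'
    obtain ⟨x, hx, hne⟩ := h.places
    apply hne
    rw [hσ₁, h' x hx]
  have hc₀F : Fixes F (σ₁⁻¹ * c * σ₁) := hcF.conj' hFn σ₁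
  have hc₀k : ¬ Fixes k (σ₁⁻¹ * c * σ₁) := by
    intro h'
    apply hck
    have h1 := h'.conj hkn σ₁
    have h2 : σ₁ * (σ₁⁻¹ * c * σ₁) * σ₁⁻¹ = c := by group
    rwa [h2] at h1
  have hcc₀ : (σ₁⁻¹ * c * σ₁) * (σ₁⁻¹ * c * σ₁) = 1 := by
    calc σ₁⁻¹ * c * σ₁ * (σ₁⁻¹ * c * σ₁) = σ₁⁻¹ * (c * c) * σ₁ := by group
      _ = 1 := by rw [hcc]; group
  by_cases hk : Fixes k σ₁
  · exact ⟨c, σ₁⁻¹ * c * σ₁, σ₁, hc, by group, hcc, hcc₀, hk, hs1F, hcF, hc₀F, hck, hc₀k,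
      Or.inl hσ₁⟩
  · refine ⟨c, σ₁⁻¹ * c * σ₁, c * σ₁, hc, by group, hcc, hcc₀, quad h.deg_k hck hk, ?_, hcF, hc₀F,
      hck, hc₀k, Or.inr ?_⟩
    · intro h'
      apply hs1F
      have h1 := hcF.inv.mul h'
      rwa [inv_mul_cancel_left] at h1
    · intro x
      rw [AlgEquiv.mul_apply, hc, Complex.conj_conj, hσ₁]

/-- Galois theory in `M`. -/
lemma agree_of_fixedField {M : IntermediateField ℚ Qbar} [FiniteDimensional ℚ M]
    (hM : Normal ℚ M) (S : Subgroup GQ) {τ : GQ} (h : Fixes (M ⊓ fixedField S) τ) :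
    ∃ s ∈ S, ∀ x ∈ M, τ x = s x := by
  haveI : IsGalois ℚ M := ⟨⟩
  let r : GQ →* (M ≃ₐ[ℚ] M) := AlgEquiv.restrictNormalHom M
  have hr : ∀ (g : GQ) (x : M), ((r g x : M) : Qbar) = g x := fun g x =>
    AlgEquiv.restrictNormal_commutes g M x
  have h1 : r τ ∈ S.map r := by
    rw [← IntermediateField.fixingSubgroup_fixedField (S.map r),
      IntermediateField.mem_fixingSubgroup_iff]
    intro y hy
    rw [IntermediateField.mem_fixedField_iff] at hy
    have h2 : (y : Qbar) ∈ M ⊓ fixedField S := by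
      refine ⟨y.2, ?_⟩
      rw [SetLike.mem_coe, IntermediateField.mem_fixedField_iff]
      intro s hs
      have h3 := hy (r s) ⟨s, hs, rfl⟩
      rw [← hr, h3]
    apply Subtype.ext
    rw [hr]
    exact h _ h2
  obtain ⟨s, hs, hs2⟩ := h1
  refine ⟨s, hs, fun x hx => ?_⟩
  have h3 := hr τ ⟨x, hx⟩
  have h4 := hr s ⟨x, hx⟩
  rw [← hs2, h4] at h3
  exact h3.symm

section

variable {ι w : Qbar →+* ℂ} {F k M : IntermediateField ℚ Qbar} {c c₀ σ₀ : GQ}
  (h : AbelianOverBoth ι w F k M) (hD : Cj ι w F k c c₀ σ₀)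

include h hD

lemma Cj.a_k : Fixes k (c * c₀) := quad h.deg_k hD.c_k hD.c₀_k

omit h in
lemma Cj.a_F : Fixes F (c * c₀) := hD.c_F.mul hD.c₀_F

omit h in
lemma Cj.c₀_eq : c₀ = σ₀⁻¹ * c * σ₀ := by
  rw [mul_assoc, ← hD.rel]; group

/-- The elements fixing `F` and `k` are central on `M`. -/
lemma Cj.central {z : GQ} (hzF : Fixes F z) (hzk : Fixes k z) (g : GQ) {x : Qbar} (hx : x ∈ M) :
    g (z x) = z (g x) := by
  by_cases hF : Fixes F g
  · exact h.abelian_F g z hF hzF x hx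
  · by_cases hk : Fixes k g
    · exact h.abelian_k g z hk hzk x hx
    · have hcg : Fixes k (c⁻¹ * g) := by
        refine quad h.deg_k (fun h' => hD.c_k ?_) hk
        have h1 := h'.inv
        rwa [inv_inv] at h1
      have h1 : (c⁻¹ * g) (z x) = z ((c⁻¹ * g) x) := h.abelian_k _ z hcg hzk x hx
      have h2 : ∀ y, g y = c ((c⁻¹ * g) y) := by
        intro y
        rw [AlgEquiv.mul_apply, AlgEquiv.aut_inv, AlgEquiv.apply_symm_apply]
      rw [h2, h1, h2 x]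
      exact h.abelian_F c z hD.c_F hzF _ (normal_mem h.normal _ hx)

/-- `a = c c₀` is an involution on `M`. -/
lemma Cj.a_sq {x : Qbar} (hx : x ∈ M) : (c * c₀) ((c * c₀) x) = x := by
  rw [AlgEquiv.mul_apply, AlgEquiv.mul_apply, h.abelian_F c₀ c hD.c₀_F hD.c_F _
    (normal_mem h.normal _ hx), ← AlgEquiv.mul_apply c c, hD.cc, AlgEquiv.one_apply,
    ← AlgEquiv.mul_apply c₀ c₀, hD.cc₀, AlgEquiv.one_apply]

lemma Cj.a_inv {x : Qbar} (hx : x ∈ M) : (c * c₀)⁻¹ x = (c * c₀) x := by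
  rw [AlgEquiv.aut_inv, AlgEquiv.symm_apply_eq]
  exact (hD.a_sq h hx).symm

end

end Pool.Agent.W2helper58.SR
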