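import Pool.Agent.W2helper58.SR.GenA

/-! The unit in the general case. -/

set_option autoImplicit false
set_option linter.style.haveILetI false

namespace Pool.Agent.W2helper58.SR
open NumberField Module IntermediateField Pool.Agent.K4H33.SK Pool.Agent.K4H33.SQ
open Pool.Agent.K4H33.SK.Stmt (Sub Ideals nrm Cop prd principal cntAll PrimesOver)

/-- The unit `κ`. -/
structure Kap (ι : Qbar →+* ℂ) (F k M : IntermediateField ℚ Qbar) (c c₀ : GQ) (κ : Qbar) :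
    Prop where
  κM : κ ∈ M
  κ0 : κ ≠ 0
  κi : IsIntegral ℤ κ
  κi' : IsIntegral ℤ κ⁻¹
  cκ : c₀ κ = κ⁻¹
  inv : ∀ σ, Fixes k σ → ‖ι ((σ * (c * c₀)) κ)‖ * ‖ι (σ κ)‖ = 1
  one : ∀ σ, Fixes k σ → ¬ Fixes F σ → ‖ι (σ κ)‖ = 1

section

variable {ι w : Qbar →+* ℂ} {F k M : IntermediateField ℚ Qbar} {c c₀ σ₀ : GQ} {κ : Qbar}
  (h : AbelianOverBoth ι w F k M) (hD : Cj ι w F k c c₀ σ₀) (H : Kap ι F k M c c₀ κ)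

include h hD H

lemma Kap.norm_c (σ : GQ) (x : Qbar) : ‖ι ((c * σ) x)‖ = ‖ι (σ x)‖ := by
  rw [AlgEquiv.mul_apply, hD.conj, Complex.norm_conj]

lemma Kap.mu_mem : σ₀⁻¹ κ ∈ M := normal_mem h.normal _ H.κM

lemma Kap.mu_ne : σ₀⁻¹ κ ≠ 0 := by simpa using H.κ0

lemma Kap.cmu : c (σ₀⁻¹ κ) = (σ₀⁻¹ κ)⁻¹ := by
  have h0 : Fixes F (σ₀ * σ₀) := quad h.deg_F hD.s_F hD.s_F
  have h2 : (σ₀ * σ₀)⁻¹ (c (σ₀ κ)) = c ((σ₀ * σ₀)⁻¹ (σ₀ κ)) :=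
    h.abelian_F _ _ h0.inv hD.c_F _ (normal_mem h.normal σ₀ H.κM)
  have h3 : (σ₀ * σ₀)⁻¹ (σ₀ κ) = σ₀⁻¹ κ := by
    have e : (σ₀ * σ₀)⁻¹ * σ₀ = σ₀⁻¹ := by group
    exact congrArg (fun g : GQ => g κ) e
  have h4 : (σ₀ * σ₀)⁻¹ (c (σ₀ κ)) = σ₀⁻¹ (c₀ κ) := by
    have e : (σ₀ * σ₀)⁻¹ * (c * σ₀) = σ₀⁻¹ * (σ₀⁻¹ * c * σ₀) := by group
    rw [hD.c₀_eq]
    exact congrArg (fun g : GQ => g κ) e
  rw [← map_inv₀, ← H.cκ, ← h4, h2, h3]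

lemma Kap.eta_mem : σ₀⁻¹ κ * c₀ (σ₀⁻¹ κ) ∈ M :=
  mul_mem (H.mu_mem h hD) (normal_mem h.normal _ (H.mu_mem h hD))

lemma Kap.c₀_eta : c₀ (σ₀⁻¹ κ * c₀ (σ₀⁻¹ κ)) = σ₀⁻¹ κ * c₀ (σ₀⁻¹ κ) := by
  rw [map_mul, ← AlgEquiv.mul_apply c₀ c₀, hD.cc₀, AlgEquiv.one_apply, mul_comm]

lemma Kap.eta_val {z : GQ} (hzF : Fixes F z) (hzk : Fixes k z) :
    ι (σ₀ (z (σ₀⁻¹ κ * c₀ (σ₀⁻¹ κ)))) = ((‖ι (z κ)‖ ^ 2 : ℝ) : ℂ) := by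
  have h0 : c₀ (σ₀⁻¹ κ) = (σ₀⁻¹ * c) κ := by
    have e : (σ₀⁻¹ * c * σ₀) * σ₀⁻¹ = σ₀⁻¹ * c := by group
    rw [hD.c₀_eq]
    exact congrArg (fun g : GQ => g κ) e
  have h1 : z (σ₀⁻¹ κ) = σ₀⁻¹ (z κ) := (hD.central h hzF hzk σ₀⁻¹ H.κM).symm
  have h2 : z ((σ₀⁻¹ * c) κ) = (σ₀⁻¹ * c) (z κ) :=
    (hD.central h hzF hzk (σ₀⁻¹ * c) H.κM).symm
  rw [map_mul, h0, h1, h2, AlgEquiv.mul_apply, map_mul, ← AlgEquiv.mul_apply σ₀ σ₀⁻¹,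
    ← AlgEquiv.mul_apply σ₀ σ₀⁻¹, mul_inv_cancel, AlgEquiv.one_apply, AlgEquiv.one_apply, map_mul,
    hD.conj, Complex.mul_conj, Complex.normSq_eq_norm_sq]

lemma Kap.norm_off {ρ : GQ} (hρ : ¬ Fixes F ρ) : ‖ι (ρ κ)‖ = 1 := by
  by_cases hk : Fixes k ρ
  · exact H.one ρ hk hρ
  · rw [← H.norm_c h hD]
    refine H.one _ (quad h.deg_k hD.c_k hk) fun h1 => hρ ?_
    have h2 := hD.c_F.inv.mul h1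
    rwa [inv_mul_cancel_left] at h2

lemma Kap.eta_off {σ : GQ} (hσ : Fixes F σ) : ‖ι (σ (σ₀⁻¹ κ * c₀ (σ₀⁻¹ κ)))‖ = 1 := by
  have h1 : ∀ τ : GQ, Fixes F τ → ‖ι (τ (σ₀⁻¹ κ))‖ = 1 := by
    intro τ hτ
    have h2 : ¬ Fixes F (τ * σ₀⁻¹) := by
      intro h'
      apply hD.s_F
      have h3 := h'.inv.mul hτ
      have h4 : (τ * σ₀⁻¹)⁻¹ * τ = σ₀ := by group
      rwa [h4] at h3
    exact H.norm_off h hD h2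
  rw [map_mul, map_mul, norm_mul, h1 σ hσ, one_mul]
  exact h1 (σ * c₀) (hσ.mul hD.c₀_F)

lemma Kap.nrm_inv (σ : GQ) : ‖ι ((σ * (c * c₀)) κ)‖ * ‖ι (σ κ)‖ = 1 := by
  by_cases hk : Fixes k σ
  · exact H.inv σ hk
  · have h1 := H.inv (c * σ) (quad h.deg_k hD.c_k hk)
    rwa [mul_assoc c σ, H.norm_c h hD, H.norm_c h hD] at h1

lemma Kap.exists_delta : ∃ δ : Qbar, (∃ n : ℕ, 0 < n ∧ δ ^ n = 1) ∧ c κ = δ * κ := by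
  refine ⟨c κ / κ, root_of_norm (ι := ι) ?_ ?_, by rw [div_mul_cancel₀ _ H.κ0]⟩
  · rw [div_eq_mul_inv]
    exact (H.κi.map (c : Qbar →+* Qbar).toIntAlgHom).mul H.κi'
  · intro σ
    have h1 : c κ = ((c * c₀) κ)⁻¹ := by
      rw [AlgEquiv.mul_apply, H.cκ, map_inv₀, inv_inv]
    have h2 := H.nrm_inv h hD σ
    rw [AlgEquiv.mul_apply] at h2
    have h3 : ‖ι (σ κ)‖ ≠ 0 := by
      rw [norm_ne_zero_iff, Ne, map_eq_zero]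
      simpa using H.κ0
    rw [map_div₀, map_div₀, norm_div, h1, map_inv₀, map_inv₀, norm_inv]
    rw [div_eq_iff h3, one_mul]
    exact inv_eq_of_mul_eq_one_right h2

lemma Kap.eta_root : AbelianRoot F 2 (σ₀⁻¹ κ * c₀ (σ₀⁻¹ κ)) := by
  obtain ⟨δ, ⟨n, hn, hδ⟩, hc⟩ := H.exists_delta h hD
  have h0 : c₀ (σ₀⁻¹ κ) = σ₀⁻¹ (c κ) := by
    have e : (σ₀⁻¹ * c * σ₀) * σ₀⁻¹ = σ₀⁻¹ * c := by group
    rw [hD.c₀_eq]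
    exact congrArg (fun g : GQ => g κ) e
  have h1 : σ₀⁻¹ κ * c₀ (σ₀⁻¹ κ) = σ₀⁻¹ δ * (σ₀⁻¹ κ) ^ 2 := by
    rw [h0, hc, map_mul]
    ring
  intro lam hlam σ τ hσ hτ
  have hmu := H.mu_ne h hD
  have hξ : (lam / σ₀⁻¹ κ) ^ (2 * n) = 1 := by
    rw [pow_mul, div_pow, hlam, h1, mul_div_assoc, div_self (pow_ne_zero _ hmu), mul_one,
      ← map_pow, hδ, map_one]
  set ξ : Qbar := lam / σ₀⁻¹ κ with hξdef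
  have hl : lam = ξ * σ₀⁻¹ κ := by rw [hξdef, div_mul_cancel₀ _ hmu]
  have hpos : 0 < 2 * n := by omega
  obtain ⟨a, -, ha⟩ := exists_pow hpos σ
  obtain ⟨b, -, hb⟩ := exists_pow hpos τ
  have e1 : σ (τ ξ) = τ (σ ξ) := by
    rw [hb ξ hξ, ha ξ hξ, map_pow, map_pow, ha ξ hξ, hb ξ hξ, ← pow_mul, ← pow_mul, mul_comm]
  rw [hl, map_mul, map_mul, map_mul, map_mul, e1, h.abelian_F σ τ hσ hτ _ (H.mu_mem h hD)]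

omit h hD in
lemma Kap.eta_integral (σ₀ : GQ) : IsIntegral ℤ (σ₀⁻¹ κ * c₀ (σ₀⁻¹ κ)) := by
  have h1 : ∀ g : GQ, IsIntegral ℤ (g κ) := fun g => H.κi.map (g : Qbar →+* Qbar).toIntAlgHom
  exact (h1 σ₀⁻¹).mul (h1 (c₀ * σ₀⁻¹))

omit h hD in
lemma Kap.eta_integral' (σ₀ : GQ) : IsIntegral ℤ (σ₀⁻¹ κ * c₀ (σ₀⁻¹ κ))⁻¹ := by
  have h1 : ∀ g : GQ, IsIntegral ℤ (g κ⁻¹) := fun g => H.κi'.map (g : Qbar →+* Qbar).toIntAlgHom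
  rw [mul_inv, ← map_inv₀, ← map_inv₀, ← map_inv₀]
  exact (h1 σ₀⁻¹).mul (h1 (c₀ * σ₀⁻¹))

end

end Pool.Agent.W2helper58.SR
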