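import Pool.Agent.W2helper58.SR.GenB

/-! Fixed fields and counting in the general case. -/

set_option autoImplicit false
set_option linter.style.haveILetI false

namespace Pool.Agent.W2helper58.SR
open NumberField Module IntermediateField Pool.Agent.K4H33.SK Pool.Agent.K4H33.SQ
open Pool.Agent.K4H33.SK.Stmt (Sub Ideals nrm Cop prd principal cntAll PrimesOver)

/-- Counting in a quadratic extension `L / L'`. -/
lemma cnt_two {F L' L : IntermediateField ℚ Qbar} [NumberField F] {𝔣 : Ideal (𝓞 F)}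
    {art : Ideal (𝓞 F) → GQ} (hL : L' ≤ L) {a : GQ} (ha : Fixes L' a) (hna : ¬ Fixes L a)
    (hall : ∀ τ : GQ, Fixes L' τ → (∀ x ∈ L, τ x = x) ∨ ∀ x ∈ L, τ x = a x) (σ : GQ) (n : ℕ) :
    cnt F L' 𝔣 art σ n = cnt F L 𝔣 art σ n + cnt F L 𝔣 art (σ * a) n := by
  classical
  unfold cnt
  have hfin : {I : Ideal (𝓞 F) | Ideal.absNorm I = n}.Finite := Ideal.finite_setOfPred_absNorm_eq n
  have key : ∀ 𝔟 : Ideal (𝓞 F), (Ideal.absNorm 𝔟 = n ∧ IsCoprime 𝔟 𝔣 ∧ ∀ x ∈ L', art 𝔟 x = σ x) ↔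
      ((Ideal.absNorm 𝔟 = n ∧ IsCoprime 𝔟 𝔣 ∧ ∀ x ∈ L, art 𝔟 x = σ x) ∨
        (Ideal.absNorm 𝔟 = n ∧ IsCoprime 𝔟 𝔣 ∧ ∀ x ∈ L, art 𝔟 x = (σ * a) x)) := by
    intro 𝔟
    constructor
    · rintro ⟨h1, h2, h3⟩
      have hval : ∀ x, art 𝔟 x = σ ((σ⁻¹ * art 𝔟) x) := by
        intro x
        rw [AlgEquiv.mul_apply, AlgEquiv.aut_inv, AlgEquiv.apply_symm_apply]
      rcases hall _ (agree_iff.1 h3) with h | h
      · exact Or.inl ⟨h1, h2, fun x hx => by rw [hval, h x hx]⟩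
      · exact Or.inr ⟨h1, h2, fun x hx => by rw [hval, h x hx, AlgEquiv.mul_apply]⟩
    · rintro (⟨h1, h2, h3⟩ | ⟨h1, h2, h3⟩)
      · exact ⟨h1, h2, fun x hx => h3 x (hL hx)⟩
      · exact ⟨h1, h2, fun x hx => by rw [h3 x (hL hx), AlgEquiv.mul_apply, ha x hx]⟩
  haveI f1 : Finite {𝔟 : Ideal (𝓞 F) // Ideal.absNorm 𝔟 = n ∧ IsCoprime 𝔟 𝔣 ∧
      ∀ x ∈ L, art 𝔟 x = σ x} := Set.Finite.subset hfin (fun 𝔟 h => h.1)
  haveI f2 : Finite {𝔟 : Ideal (𝓞 F) // Ideal.absNorm 𝔟 = n ∧ IsCoprime 𝔟 𝔣 ∧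
      ∀ x ∈ L, art 𝔟 x = (σ * a) x} := Set.Finite.subset hfin (fun 𝔟 h => h.1)
  rw [← Nat.card_sum]
  refine Nat.card_congr ((Equiv.subtypeEquivRight key).trans ?_)
  refine subtypeOrEquiv _ _ ?_
  rw [Pi.disjoint_iff]
  intro 𝔟
  rw [Prop.disjoint_iff]
  by_contra hc
  obtain ⟨h1, h2⟩ := hc
  apply hna
  intro x hx
  apply σ.injective
  have h3 := h2.2.2 x hx
  rw [AlgEquiv.mul_apply, h1.2.2 x hx] at h3
  exact h3.symm

/-- The maximal subfield of `M` fixed by `c₀`. -/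
noncomputable def H0 (M : IntermediateField ℚ Qbar) (c₀ : GQ) : IntermediateField ℚ Qbar :=
  M ⊓ fixedField (Subgroup.zpowers c₀)

lemma mem_H0 {M : IntermediateField ℚ Qbar} {c₀ : GQ} {x : Qbar} :
    x ∈ H0 M c₀ ↔ x ∈ M ∧ c₀ x = x := by
  constructor
  · rintro ⟨h1, h2⟩
    rw [SetLike.mem_coe, IntermediateField.mem_fixedField_iff] at h2
    exact ⟨h1, h2 c₀ (Subgroup.mem_zpowers c₀)⟩
  · rintro ⟨h1, h2⟩
    refine ⟨h1, ?_⟩
    rw [SetLike.mem_coe, IntermediateField.mem_fixedField_iff]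
    intro s hs
    have h3 : Subgroup.zpowers c₀ ≤ (ℚ⟮x⟯).fixingSubgroup := by
      rw [Subgroup.zpowers_le, IntermediateField.mem_fixingSubgroup_iff]
      have h4 := (agree_adjoin' h2)
      exact h4
    have h5 := h3 hs
    rw [IntermediateField.mem_fixingSubgroup_iff] at h5
    exact h5 x (mem_adjoin_simple_self ℚ x)
where
  agree_adjoin' {c₀ : GQ} {x : Qbar} (h : c₀ x = x) : ∀ y ∈ ℚ⟮x⟯, c₀ y = y :=
    fixes_adjoin h

section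

variable {ι w : Qbar →+* ℂ} {F k M : IntermediateField ℚ Qbar} {c c₀ σ₀ : GQ}
  (h : AbelianOverBoth ι w F k M) (hD : Cj ι w F k c c₀ σ₀)

include h hD

lemma F_le_H0 : F ≤ H0 M c₀ := fun _ hx => mem_H0.2 ⟨h.F_le hx, hD.c₀_F _ hx⟩

omit hD in
lemma all_H0 [FiniteDimensional ℚ M] (hcc₀ : c₀ * c₀ = 1) (τ : GQ) (hτ : Fixes (H0 M c₀) τ) :
    (∀ x ∈ M, τ x = x) ∨ ∀ x ∈ M, τ x = c₀ x := by
  obtain ⟨s, hs, h1⟩ := agree_of_fixedField h.normal _ hτ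
  obtain ⟨i, rfl⟩ := Subgroup.mem_zpowers_iff.1 hs
  have h2 : c₀ ^ (2 : ℤ) = 1 := by rw [zpow_two, hcc₀]
  rcases Int.even_or_odd' i with ⟨j, rfl | rfl⟩
  · left
    intro x hx
    rw [h1 x hx, zpow_mul, h2, one_zpow, AlgEquiv.one_apply]
  · right
    intro x hx
    rw [h1 x hx, zpow_add, zpow_mul, h2, one_zpow, one_mul, zpow_one]

/-- The group generated by `c` and `c₀` on `M`. -/
def Spl : Subgroup GQ where
  carrier := {s | ∃ i j : ℤ, ∀ x ∈ M, s x = (c ^ i * c₀ ^ j) x}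
  one_mem' := ⟨0, 0, fun x _ => by simp⟩
  mul_mem' := by
    rintro s t ⟨i, j, h1⟩ ⟨i', j', h2⟩
    refine ⟨i + i', j + j', fun x hx => ?_⟩
    have hF : ∀ (u : GQ), Fixes F u → ∀ n : ℤ, Fixes F (u ^ n) := fun u hu n => by
      rw [fixes_iff] at *
      exact Subgroup.zpow_mem _ hu n
    have e1 : (c ^ i' * c₀ ^ j') x ∈ M := normal_mem h.normal _ hx
    rw [AlgEquiv.mul_apply, h2 x hx, h1 _ e1, zpow_add, zpow_add, AlgEquiv.mul_apply,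
      AlgEquiv.mul_apply, AlgEquiv.mul_apply, AlgEquiv.mul_apply, AlgEquiv.mul_apply]
    rw [h.abelian_F (c₀ ^ j) (c ^ i') (hF _ hD.c₀_F _) (hF _ hD.c_F _) _ (normal_mem h.normal _ hx)]
  inv_mem' := by
    rintro s ⟨i, j, h1⟩
    refine ⟨-i, -j, fun x hx => ?_⟩
    have hF : ∀ (u : GQ), Fixes F u → ∀ n : ℤ, Fixes F (u ^ n) := fun u hu n => by
      rw [fixes_iff] at *
      exact Subgroup.zpow_mem _ hu n
    rw [AlgEquiv.aut_inv, AlgEquiv.symm_apply_eq, h1 _ (normal_mem h.normal _ hx),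
      AlgEquiv.mul_apply, AlgEquiv.mul_apply,
      h.abelian_F (c₀ ^ j) (c ^ (-i)) (hF _ hD.c₀_F _) (hF _ hD.c_F _) _
        (normal_mem h.normal _ hx), ← AlgEquiv.mul_apply (c ^ i), ← zpow_add, add_neg_cancel,
      zpow_zero, AlgEquiv.one_apply, ← AlgEquiv.mul_apply (c₀ ^ j), ← zpow_add, add_neg_cancel,
      zpow_zero, AlgEquiv.one_apply]

lemma c_Spl : c ∈ Spl h hD := ⟨1, 0, fun x _ => by simp⟩

lemma c₀_Spl : c₀ ∈ Spl h hD := ⟨0, 1, fun x _ => by simp⟩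

/-- The maximal totally real subfield of `M`. -/
noncomputable def Lp : IntermediateField ℚ Qbar := M ⊓ fixedField (Spl h hD)

lemma Lp_mem {x : Qbar} (hx : x ∈ Lp h hD) : x ∈ M ∧ c x = x ∧ c₀ x = x := by
  obtain ⟨h1, h2⟩ := hx
  rw [SetLike.mem_coe, IntermediateField.mem_fixedField_iff] at h2
  exact ⟨h1, h2 _ (c_Spl h hD), h2 _ (c₀_Spl h hD)⟩

lemma Lp_le : Lp h hD ≤ H0 M c₀ := fun _ hx =>
  mem_H0.2 ⟨(Lp_mem h hD hx).1, (Lp_mem h hD hx).2.2⟩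

lemma F_le_Lp : F ≤ Lp h hD := by
  intro x hx
  refine ⟨h.F_le hx, ?_⟩
  rw [SetLike.mem_coe, IntermediateField.mem_fixedField_iff]
  rintro s ⟨i, j, h1⟩
  have hF : ∀ (u : GQ), Fixes F u → ∀ n : ℤ, Fixes F (u ^ n) := fun u hu n => by
    rw [fixes_iff] at *
    exact Subgroup.zpow_mem _ hu n
  rw [h1 x (h.F_le hx)]
  exact ((hF _ hD.c_F i).mul (hF _ hD.c₀_F j)) x hx

/-- Fields fixed by `c` and `c₀` are totally real. -/
lemma totally_real {L : IntermediateField ℚ Qbar} (hLM : L ≤ M) (hc : Fixes L c)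
    (hc₀ : Fixes L c₀) : ∀ x ∈ L, ∀ v : Qbar →+* ℂ, (v x).im = 0 := by
  intro x hx v
  obtain ⟨σ, hσ⟩ := exists_lift ι v
  rw [hσ]
  apply Complex.conj_eq_iff_im.1
  rw [← hD.conj]
  congr 1
  by_cases hF : Fixes F σ
  · rw [h.abelian_F c σ hD.c_F hF x (hLM hx), hc x hx]
  · have h1 : Fixes F (σ₀⁻¹ * σ) := by
      refine quad h.deg_F (fun h' => hD.s_F ?_) hF
      have h2 := h'.inv
      rwa [inv_inv] at h2
    have h2 : σ x = σ₀ ((σ₀⁻¹ * σ) x) := by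
      rw [AlgEquiv.mul_apply, AlgEquiv.aut_inv, AlgEquiv.apply_symm_apply]
    rw [h2, ← AlgEquiv.mul_apply c σ₀, ← hD.rel, AlgEquiv.mul_apply,
      h.abelian_F c₀ _ hD.c₀_F h1 x (hLM hx), hc₀ x hx]

lemma Lp_real : ∀ x ∈ Lp h hD, ∀ v : Qbar →+* ℂ, (v x).im = 0 :=
  totally_real h hD (fun _ hx => (Lp_mem h hD hx).1) (fun _ hx => (Lp_mem h hD hx).2.1)
    (fun _ hx => (Lp_mem h hD hx).2.2)

lemma all_Lp [FiniteDimensional ℚ M] (τ : GQ) (hτ : Fixes (Lp h hD) τ) :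
    (∀ x ∈ H0 M c₀, τ x = x) ∨ ∀ x ∈ H0 M c₀, τ x = (c * c₀) x := by
  obtain ⟨s, ⟨i, j, h2⟩, h1⟩ := agree_of_fixedField h.normal _ hτ
  have h3 : c ^ (2 : ℤ) = 1 := by rw [zpow_two, hD.cc]
  have h4 : ∀ x ∈ H0 M c₀, τ x = (c ^ i) x := by
    intro x hx
    have hx' := mem_H0.1 hx
    have h5 : Fixes ℚ⟮x⟯ (c₀ ^ j) := by
      have h6 : Fixes ℚ⟮x⟯ c₀ := fixes_adjoin hx'.2
      rw [fixes_iff] at *
      exact Subgroup.zpow_mem _ h6 j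
    rw [h1 x hx'.1, h2 x hx'.1, AlgEquiv.mul_apply, h5 x (mem_adjoin_simple_self ℚ x)]
  rcases Int.even_or_odd' i with ⟨m, rfl | rfl⟩
  · left
    intro x hx
    rw [h4 x hx, zpow_mul, h3, one_zpow, AlgEquiv.one_apply]
  · right
    intro x hx
    rw [h4 x hx, zpow_add, zpow_mul, h3, one_zpow, one_mul, zpow_one, AlgEquiv.mul_apply,
      (mem_H0.1 hx).2]

/-- `a` acts nontrivially on `H0`. -/
lemma a_H0 [FiniteDimensional ℚ M] (hne : ¬ Fixes M (c * c₀)) : ¬ Fixes (H0 M c₀) (c * c₀) := by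
  intro h'
  rcases all_H0 h hD.cc₀ _ h' with h1 | h1
  · exact hne h1
  · apply hD.c₀_k
    intro x hx
    rw [← h1 x (h.k_le hx)]
    exact hD.a_k h x hx

end

end Pool.Agent.W2helper58.SR
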