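import Pool.Agent.W2helper58.SR.GenC

/-! The main theorem in the general case. -/

set_option autoImplicit false
set_option linter.style.haveILetI false

namespace Pool.Agent.W2helper58.SR
open NumberField Module IntermediateField Pool.Agent.K4H33.SK Pool.Agent.K4H33.SQ
open Pool.Agent.K4H33.SK.Stmt (Sub Ideals nrm Cop prd principal cntAll PrimesOver)

/-- Artin's formalism for the partial zeta functions of `M` over `F` and over `k`: they are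
invariant under the conjugations by the automorphisms of `M`, and `L(s, χ) = L(s, ψ)` for the
characters `χ` of `M / F` and `ψ` of `M / k` which agree over `F ⊔ k` and are nontrivial on the
commutators; the series with the coefficients `cnt z n - cnt (z a) n`, `a = s t s⁻¹ t⁻¹`, are the
parts of these `L`-functions belonging to `z`. -/
structure ArtinFormalism (F k M : Sub) [NumberField F] [NumberField k] (𝔣 : Ideals F)
    (𝔪 : Ideals k) (artF : Ideals F → GQ) (art : Ideals k → GQ) : Prop where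
  conj_F : ∀ σ g : GQ, Fixes F σ → ∀ n : ℕ,
    Stmt.cnt F M 𝔣 artF (g * σ * g⁻¹) n = Stmt.cnt F M 𝔣 artF σ n
  conj_k : ∀ σ g : GQ, Fixes k σ → ∀ n : ℕ,
    Stmt.cnt k M 𝔪 art (g * σ * g⁻¹) n = Stmt.cnt k M 𝔪 art σ n
  eq : ∀ z s t : GQ, Fixes F z → Fixes k z → Fixes F s → ¬ Fixes k s → Fixes k t → ¬ Fixes F t →
    ∀ n : ℕ, (Stmt.cnt F M 𝔣 artF z n : ℤ) -
        Stmt.cnt F M 𝔣 artF (z * (s * t * s⁻¹ * t⁻¹)) n =
      (Stmt.cnt k M 𝔪 art z n : ℤ) - Stmt.cnt k M 𝔪 art (z * (s * t * s⁻¹ * t⁻¹)) n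

/-- The partial zeta functions of the totally real fields between `F` and `M` have double zeros
at zero. -/
def TotallyRealZeros (F M : Sub) [NumberField F] (𝔣 : Ideals F) (artF : Ideals F → GQ) : Prop :=
  ∀ L : Sub, F ≤ L → L ≤ M → (∀ x ∈ L, ∀ v : Qbar →+* ℂ, (v x).im = 0) → DoubleZero F L 𝔣 artF

/-- The totally real case. -/
lemma srq_trivial (w : Qbar →+* ℂ) (F H : Sub) [NumberField F] (𝔣 : Ideals F)
    (artF : Ideals F → GQ) (hB : DoubleZero F H 𝔣 artF) : StarkRealQuad w F H 𝔣 artF := by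
  classical
  have hexB : ∀ σ : GQ, ∃ B : ℂ → ℂ, Fixes F σ →
      IsZeta (Stmt.cnt F H 𝔣 artF σ) B ∧ B 0 = 0 ∧ deriv B 0 = 0 := by
    intro σ
    by_cases h : Fixes F σ
    · obtain ⟨B, hB'⟩ := hB σ h
      exact ⟨B, fun _ => hB'⟩
    · exact ⟨fun _ => 0, fun h' => absurd h' h⟩
  choose B hB' using hexB
  refine ⟨B, fun _ => 0, 1, H.one_mem, isIntegral_one, by rw [inv_one]; exact isIntegral_one,
    ?_, ?_, ?_⟩
  · intro σ hσ
    obtain ⟨b1, b2, b3⟩ := hB' σ hσ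
    refine ⟨b1, b2, by rw [b3]; simp, ?_⟩
    rw [map_one, map_one]
    simp
  · intro w' _
    rw [map_one, norm_one]
  · intro lam hlam σ τ _ _
    have h1 : lam = 1 ∨ lam = -1 := by
      have h2 : lam ^ 2 = 1 ^ 2 := by rw [hlam, one_pow]
      exact sq_eq_sq_iff_eq_or_eq_neg.1 h2
    rcases h1 with h1 | h1
    · rw [h1, map_one, map_one, map_one]
    · rw [h1, map_neg, map_neg, map_neg, map_neg, map_one, map_one, map_one]

/-- The field `H0`. -/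
theorem srq_H0 (ι w : Qbar →+* ℂ) (F k M : Sub) [NumberField F] [NumberField k] [NumberField M]
    (h : AbelianOverBoth ι w F k M) {c c₀ σ₀ : GQ} (hD : Cj ι w F k c c₀ σ₀)
    (hne : ¬ Fixes M (c * c₀)) (𝔣 : Ideals F) (𝔪 : Ideals k) (artF : Ideals F → GQ)
    (art : Ideals k → GQ) (hA : ArtinFormalism F k M 𝔣 𝔪 artF art)
    (hB : TotallyRealZeros F M 𝔣 artF) (W' : ℕ) (hW' : IsTorsionOrder M W')
    (hS : Stmt.StarkImQuad ι k M 𝔪 art W') :
    StarkRealQuad w F (H0 M c₀) 𝔣 artF := by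
  classical
  obtain ⟨Z, ε, hε, hε0, hlim, hint, hab⟩ := hS
  have hak : Fixes k (c * c₀) := hD.a_k h
  have haF : Fixes F (c * c₀) := hD.a_F
  have hcinv : c⁻¹ = c := inv_eq_of_mul_eq_one_left hD.cc
  have hc₀inv : c₀⁻¹ = c₀ := inv_eq_of_mul_eq_one_left hD.cc₀
  have hainvM : ∀ x ∈ M, (c * c₀)⁻¹ x = (c * c₀) x := fun x hx => hD.a_inv h hx
  have hcong : ∀ τ τ' : GQ, Fixes k τ → Fixes k τ' → (∀ x ∈ M, τ x = τ' x) →
      deriv (Z τ) 0 = deriv (Z τ') 0 := by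
    intro τ τ' h1 h2 h3
    exact (isZeta_deriv (hlim τ h1).1 (hlim τ' h2).1 fun n _ => cnt_congr k _ 𝔪 art h3 n).1
  -- the conjugates of the elements fixing `k` but not `F`
  have hconj : ∀ σ : GQ, Fixes k σ → ¬ Fixes F σ → ∀ x ∈ M, (c * σ * c⁻¹) x =
      (σ * (c * c₀)⁻¹) x := by
    intro σ h1 h2 x hx
    have hz : Fixes F (σ₀⁻¹ * σ) := by
      refine quad h.deg_F (fun h' => hD.s_F ?_) h2
      have h3 := h'.inv
      rwa [inv_inv] at h3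
    have hzk : Fixes k (σ₀⁻¹ * σ) := hD.s_k.inv.mul h1
    set z : GQ := σ₀⁻¹ * σ with hzdef
    have hσ : σ = σ₀ * z := by rw [hzdef]; group
    rw [hσ]
    have e1 : c * (σ₀ * z) * c⁻¹ = σ₀ * (c₀ * (z * c⁻¹)) := by
      rw [← mul_assoc c, ← hD.rel]
      group
    rw [e1, AlgEquiv.mul_apply σ₀, AlgEquiv.mul_apply c₀, AlgEquiv.mul_apply z,
      hD.central h hz hzk c₀ (normal_mem h.normal _ hx), AlgEquiv.mul_apply (σ₀ * z),
      AlgEquiv.mul_apply σ₀ z, mul_inv_rev, hc₀inv, AlgEquiv.mul_apply c₀ c⁻¹]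
  have hsa : ∀ τ : GQ, Fixes k τ → ¬ Fixes F τ →
      deriv (Z τ) 0 = deriv (Z (τ * (c * c₀)⁻¹)) 0 := by
    intro τ h1 h2
    have h3 : Fixes k (τ * (c * c₀)⁻¹) := h1.mul hak.inv
    refine (isZeta_deriv (hlim τ h1).1 (hlim _ h3).1 fun n _ => ?_).1
    rw [← hA.conj_k τ c h1 n]
    exact cnt_congr k _ 𝔪 art (hconj τ h1 h2) n
  have hCD : ConjData ι (H0 M c₀) k c c₀ σ₀ := by
    refine ⟨hD.conj, hD.rel, hD.cc, hD.cc₀, hD.s_k, ?_, ?_, hD.c₀_k, hak, a_H0 h hD hne, ?_⟩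
    · exact fun h' => hD.s_F (h'.mono (F_le_H0 h hD))
    · exact fun x hx => (mem_H0.1 hx).2
    · intro h'
      apply hD.s_F
      have h1 := (h'.mono (F_le_H0 h hD)).mul haF
      rwa [inv_mul_cancel_right] at h1
  obtain ⟨κ, hκM, hκ0, hκi, hκi', hcκ, hlog⟩ :=
    exists_kappa hCD h.k_le hW'.1 hε hε0 hlim hint hab (hsa σ₀ hD.s_k hD.s_F)
  have hpos : ∀ g : GQ, 0 < ‖ι (g κ)‖ := by
    intro g
    rw [norm_pos_iff, Ne, map_eq_zero]
    simpa using hκ0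
  have H : Kap ι F k M c c₀ κ := by
    refine ⟨hκM, hκ0, hκi, hκi', hcκ, ?_, ?_⟩
    · intro σ hσ
      have h1 := hlog σ hσ
      have h2 := hlog (σ * (c * c₀)) (hσ.mul hak)
      have h3 : σ * (c * c₀) * (c * c₀)⁻¹ = σ := by group
      have h4 : deriv (Z (σ * (c * c₀))) 0 = deriv (Z (σ * (c * c₀)⁻¹)) 0 := by
        refine hcong _ _ (hσ.mul hak) (hσ.mul hak.inv) fun x hx => ?_
        show σ ((c * c₀) x) = σ ((c * c₀)⁻¹ x)
        rw [hainvM x hx]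
      rw [h3, h4] at h2
      have h5 : Real.log (‖ι ((σ * (c * c₀)) κ)‖ ^ 2) + Real.log (‖ι (σ κ)‖ ^ 2) = 0 := by
        have : ((Real.log (‖ι ((σ * (c * c₀)) κ)‖ ^ 2) + Real.log (‖ι (σ κ)‖ ^ 2) : ℝ) : ℂ) = 0 := by
          push_cast at h1 h2 ⊢
          rw [h1, h2]
          ring
        exact_mod_cast this
      rw [← Real.log_mul (pow_ne_zero _ (hpos _).ne') (pow_ne_zero _ (hpos _).ne'), ← mul_pow] at h5
      have h6 : 0 < ‖ι ((σ * (c * c₀)) κ)‖ * ‖ι (σ κ)‖ := mul_pos (hpos _) (hpos _)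
      rcases Real.log_eq_zero.1 h5 with h | h | h
      · exact absurd h (pow_ne_zero _ h6.ne')
      · exact (pow_eq_one_iff_of_nonneg h6.le two_ne_zero).1 h
      · nlinarith [sq_nonneg (‖ι ((σ * (c * c₀)) κ)‖ * ‖ι (σ κ)‖)]
    · intro σ hσ hσF
      have h1 := hlog σ hσ
      rw [hsa σ hσ hσF, sub_self, neg_zero] at h1
      have h2 : Real.log (‖ι (σ κ)‖ ^ 2) = 0 := by exact_mod_cast h1
      rcases Real.log_eq_zero.1 h2 with h | h | h
      · exact absurd h (pow_ne_zero _ (hpos _).ne')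
      · exact (pow_eq_one_iff_of_nonneg (hpos _).le two_ne_zero).1 h
      · nlinarith [sq_nonneg ‖ι (σ κ)‖]
  -- every element fixing `F` acts on `H0` as a central one
  have hex : ∀ σ : GQ, ∃ z : GQ, Fixes F σ → Fixes F z ∧ Fixes k z ∧
      ∀ x ∈ H0 M c₀, σ x = z x := by
    intro σ
    by_cases hk : Fixes k σ
    · exact ⟨σ, fun h' => ⟨h', hk, fun _ _ => rfl⟩⟩
    · exact ⟨σ * c₀, fun h' => ⟨h'.mul hD.c₀_F, quad h.deg_k hk hD.c₀_k, fun x hx => by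
        rw [AlgEquiv.mul_apply, (mem_H0.1 hx).2]⟩⟩
  choose z hz using hex
  have hexB : ∀ σ : GQ, ∃ B : ℂ → ℂ, Fixes F σ →
      IsZeta (Stmt.cnt F (Lp h hD) 𝔣 artF σ) B ∧ B 0 = 0 ∧ deriv B 0 = 0 := by
    intro σ
    by_cases h' : Fixes F σ
    · obtain ⟨B, hB'⟩ := hB (Lp h hD) (F_le_Lp h hD) (fun x hx => (Lp_mem h hD hx).1)
        (Lp_real h hD) σ h'
      exact ⟨B, fun _ => hB'⟩
    · exact ⟨fun _ => 0, fun h'' => absurd h'' h'⟩
  choose B hB' using hexB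
  have hc₀M : ¬ Fixes M c₀ := fun h' => hD.c₀_k (h'.mono h.k_le)
  -- the coefficients
  have hcoef : ∀ σ : GQ, Fixes F σ → ∀ n : ℕ, (Stmt.cnt F (H0 M c₀) 𝔣 artF σ n : ℂ) = 1 / 2 *
        ((Stmt.cnt F (Lp h hD) 𝔣 artF σ n : ℂ) + 1 *
          ((cnt k M 𝔪 art (z σ) n : ℂ) - cnt k M 𝔪 art (z σ * (c * c₀)⁻¹) n)) := by
    intro σ hσ n
    obtain ⟨hzF, hzk, hzH⟩ := hz σ hσ
    set u : GQ := z σ with hu
    have hLu : cnt F (Lp h hD) 𝔣 artF σ n = cnt F (Lp h hD) 𝔣 artF u n :=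
      cnt_congr F _ 𝔣 artF (fun x hx => hzH x (Lp_le h hD hx)) n
    have hHu : cnt F (H0 M c₀) 𝔣 artF σ n = cnt F (H0 M c₀) 𝔣 artF u n :=
      cnt_congr F _ 𝔣 artF hzH n
    have s1 : cnt F (Lp h hD) 𝔣 artF u n = cnt F (H0 M c₀) 𝔣 artF u n +
        cnt F (H0 M c₀) 𝔣 artF (u * (c * c₀)) n := by
      refine cnt_two (Lp_le h hD) (fun x hx => ?_) (a_H0 h hD hne) (all_Lp h hD) u n
      rw [AlgEquiv.mul_apply, (Lp_mem h hD hx).2.2, (Lp_mem h hD hx).2.1]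
    have s2 : ∀ v : GQ, cnt F (H0 M c₀) 𝔣 artF v n = cnt F M 𝔣 artF v n +
        cnt F M 𝔣 artF (v * c₀) n := fun v =>
      cnt_two (fun x hx => (mem_H0.1 hx).1) (fun x hx => (mem_H0.1 hx).2) hc₀M
        (all_H0 h hD.cc₀) v n
    have s3 : cnt F M 𝔣 artF (u * c₀) n = cnt F M 𝔣 artF (u * (c * c₀) * c₀) n := by
      have e1 : cnt F M 𝔣 artF (σ₀ * (u * c₀) * σ₀⁻¹) n = cnt F M 𝔣 artF (u * c₀) n :=
        hA.conj_F (u * c₀) σ₀ (hzF.mul hD.c₀_F) n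
      rw [← e1]
      refine cnt_congr F _ 𝔣 artF (fun x hx => ?_) n
      have e2 : σ₀ * (u * c₀) * σ₀⁻¹ = σ₀ * (u * (σ₀⁻¹ * c)) := by
        have e3 : c₀ * σ₀⁻¹ = σ₀⁻¹ * c := by rw [hD.c₀_eq]; group
        rw [← e3]
        group
      have e4 : u * (c * c₀) * c₀ = u * c := by
        rw [mul_assoc, mul_assoc, hD.cc₀, mul_one]
      rw [e2, e4, AlgEquiv.mul_apply σ₀, AlgEquiv.mul_apply u (σ₀⁻¹ * c),
        hD.central h hzF hzk σ₀ (normal_mem h.normal _ hx), AlgEquiv.mul_apply u c,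
        ← AlgEquiv.mul_apply σ₀, mul_inv_cancel_left]
    have s4 : (cnt F M 𝔣 artF u n : ℤ) - cnt F M 𝔣 artF (u * (c * c₀)) n =
        (cnt k M 𝔪 art u n : ℤ) - cnt k M 𝔪 art (u * (c * c₀)⁻¹) n := by
      have e1 := hA.eq u c σ₀ hzF hzk hD.c_F hD.c_k hD.s_k hD.s_F n
      have e2 : ∀ x ∈ M, (u * (c * σ₀ * c⁻¹ * σ₀⁻¹)) x = (u * (c * c₀)) x := by
        intro x hx
        have e3 : c * σ₀ * c⁻¹ * σ₀⁻¹ = σ₀ * (c₀ * c) * σ₀⁻¹ := by
          rw [← hD.rel, hcinv]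
          group
        have e4 : Fixes F (c₀ * c) := hD.c₀_F.mul hD.c_F
        have e5 : Fixes k (c₀ * c) := quad h.deg_k hD.c₀_k hD.c_k
        rw [AlgEquiv.mul_apply, AlgEquiv.mul_apply u]
        congr 1
        rw [e3, AlgEquiv.mul_apply, AlgEquiv.mul_apply,
          hD.central h e4 e5 σ₀ (normal_mem h.normal _ hx), ← AlgEquiv.mul_apply σ₀ σ₀⁻¹,
          mul_inv_cancel, AlgEquiv.one_apply, AlgEquiv.mul_apply, AlgEquiv.mul_apply]
        exact h.abelian_F c₀ c hD.c₀_F hD.c_F x hx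
      have e6 : ∀ x ∈ M, (u * (c * c₀)) x = (u * (c * c₀)⁻¹) x := by
        intro x hx
        rw [AlgEquiv.mul_apply, AlgEquiv.mul_apply u, hainvM x hx]
      have e7 : Stmt.cnt F M 𝔣 artF (u * (c * σ₀ * c⁻¹ * σ₀⁻¹)) n =
          cnt F M 𝔣 artF (u * (c * c₀)) n := cnt_congr F _ 𝔣 artF e2 n
      have e8 : Stmt.cnt k M 𝔪 art (u * (c * σ₀ * c⁻¹ * σ₀⁻¹)) n =
          cnt k M 𝔪 art (u * (c * c₀)⁻¹) n :=
        cnt_congr k _ 𝔪 art (fun x hx => by rw [e2 x hx, e6 x hx]) n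
      rw [e7, e8] at e1
      exact e1
    have s4' : (cnt F M 𝔣 artF u n : ℂ) - cnt F M 𝔣 artF (u * (c * c₀)) n =
        (cnt k M 𝔪 art u n : ℂ) - cnt k M 𝔪 art (u * (c * c₀)⁻¹) n := by exact_mod_cast s4
    have t1 : (Stmt.cnt F (H0 M c₀) 𝔣 artF σ n : ℂ) =
        (cnt F M 𝔣 artF u n : ℂ) + cnt F M 𝔣 artF (u * c₀) n := by
      have : Stmt.cnt F (H0 M c₀) 𝔣 artF σ n = cnt F (H0 M c₀) 𝔣 artF σ n := rfl
      rw [this, hHu, s2]
      push_cast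
      ring
    have t2 : (Stmt.cnt F (Lp h hD) 𝔣 artF σ n : ℂ) =
        (cnt F M 𝔣 artF u n : ℂ) + cnt F M 𝔣 artF (u * c₀) n +
          (cnt F M 𝔣 artF (u * (c * c₀)) n + cnt F M 𝔣 artF (u * c₀) n) := by
      have : Stmt.cnt F (Lp h hD) 𝔣 artF σ n = cnt F (Lp h hD) 𝔣 artF σ n := rfl
      rw [this, hLu, s1, s2, s2, ← s3]
      push_cast
      ring
    rw [t1, t2, ← s4']
    ring
  -- the functions
  refine ⟨fun σ s => 1 / 2 * (B σ s + 1 * (Z (z σ) s - Z (z σ * (c * c₀)⁻¹) s)),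
    fun σ => -(1 / 2) * Real.log (‖ι (z σ κ)‖ ^ 2), σ₀⁻¹ κ * c₀ (σ₀⁻¹ κ),
    mem_H0.2 ⟨H.eta_mem h hD, H.c₀_eta h hD⟩, H.eta_integral σ₀, H.eta_integral' σ₀, ?_, ?_,
    H.eta_root h hD⟩
  · intro σ hσ
    obtain ⟨hzF, hzk, hzH⟩ := hz σ hσ
    obtain ⟨b1, b2, b3⟩ := hB' σ hσ
    obtain ⟨z1, z2, -⟩ := hlim _ hzk
    obtain ⟨y1, y2, -⟩ := hlim _ (hzk.mul hak.inv)
    refine ⟨isZeta_half b1 z1 y1 1 (hcoef σ hσ), ?_, ?_, ?_⟩
    · show 1 / 2 * (B σ 0 + 1 * (Z (z σ) 0 - Z (z σ * (c * c₀)⁻¹) 0)) = 0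
      rw [b2, z2, y2]
      ring
    · rw [deriv_half b1 z1 y1 1, b3]
      have h1 := hlog _ hzk
      have h2 : deriv (Z (z σ)) 0 - deriv (Z (z σ * (c * c₀)⁻¹)) 0 =
          -(Real.log (‖ι (z σ κ)‖ ^ 2) : ℂ) := by
        rw [h1, neg_neg]
      rw [h2]
      push_cast
      ring
    · have hval := H.eta_val h hD hzF hzk
      have hreal : ∀ y : ℝ, ι (σ₀ (σ (σ₀⁻¹ κ * c₀ (σ₀⁻¹ κ)))) = (y : ℂ) →
          w (σ (σ₀⁻¹ κ * c₀ (σ₀⁻¹ κ))) = (y : ℂ) := by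
        intro y hy
        rcases hD.w_eq with h | h
        · rw [h, hy]
        · rw [h, hy, Complex.conj_ofReal]
      apply hreal
      have hsq : 0 < ‖ι (z σ κ)‖ ^ 2 := pow_pos (hpos _) 2
      rw [hzH _ (mem_H0.2 ⟨H.eta_mem h hD, H.c₀_eta h hD⟩), hval]
      congr 1
      have h4 : -2 * (-(1 / 2) * Real.log (‖ι (z σ κ)‖ ^ 2)) =
          Real.log (‖ι (z σ κ)‖ ^ 2) := by ring
      beta_reduce
      rw [h4, Real.exp_log hsq]
  · rintro w' ⟨x, hx, hne'⟩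
    obtain ⟨σ, hσ⟩ := exists_lift ι w'
    have h1 : Fixes F σ := by
      by_contra hc
      apply hne'
      have h2 : Fixes F (σ₀⁻¹ * σ) := by
        refine quad h.deg_F (fun h => hD.s_F ?_) hc
        have h3 := h.inv
        rwa [inv_inv] at h3
      have h3 : σ x = σ₀ x := by
        have h4 := h2 x hx
        rwa [AlgEquiv.mul_apply, AlgEquiv.aut_inv, AlgEquiv.symm_apply_eq] at h4
      have h4 : (ι (σ₀ x)).im = 0 :=
        h.real_F _ (normal_mem (quad_normal h.deg_F) σ₀ hx)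
      rcases hD.w_eq with h | h
      · rw [h, hσ, h3]
      · rw [h, hσ, h3, Complex.conj_eq_iff_im.2 h4]
    rw [hσ]
    exact H.eta_off h hD h1

/-- **The main theorem.** -/
theorem stark_general (ι w : Qbar →+* ℂ) (F k M : Sub) [NumberField F] [NumberField k]
    [NumberField M] (h : AbelianOverBoth ι w F k M) (𝔣 : Ideals F) (𝔪 : Ideals k)
    (artF : Ideals F → GQ) (art : Ideals k → GQ) (hartF : Stmt.IsArtin F M 𝔣 artF)
    (hA : ArtinFormalism F k M 𝔣 𝔪 artF art) (hB : TotallyRealZeros F M 𝔣 artF) (W' : ℕ)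
    (hW' : IsTorsionOrder M W') (hS : Stmt.StarkImQuad ι k M 𝔪 art W') (H : Sub) (hFH : F ≤ H)
    (hHM : H ≤ M) (hw : ∀ x ∈ H, (w x).im = 0) (𝔤 : Ideals F) (h0 : 𝔤 ≠ ⊥)
    (hg : ∀ P : Ideals F, P.IsPrime → 𝔣 ≤ P → 𝔤 ≤ P) : StarkRealQuad w F H 𝔤 artF := by
  obtain ⟨c, c₀, σ₀, hD⟩ := exists_cj h
  have hwc : ∀ x ∈ H, c₀ x = x := by
    intro x hx
    have h1 : ι (σ₀ (c₀ x)) = (starRingEnd ℂ) (ι (σ₀ x)) := by
      rw [← AlgEquiv.mul_apply, hD.rel, AlgEquiv.mul_apply, hD.conj]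
    have h2 : (ι (σ₀ x)).im = 0 := by
      have h3 := hw x hx
      rcases hD.w_eq with h | h
      · rwa [h] at h3
      · rw [h, Complex.conj_im, neg_eq_zero] at h3
        exact h3
    rw [Complex.conj_eq_iff_im.2 h2] at h1
    exact σ₀.injective (ι.injective h1)
  have key : StarkRealQuad w F H 𝔣 artF := by
    by_cases hne : Fixes M (c * c₀)
    · refine srq_trivial w F H 𝔣 artF (hB H hFH hHM ?_)
      refine totally_real h hD hHM ?_ hwc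
      intro x hx
      have h1 := hne x (hHM hx)
      rwa [AlgEquiv.mul_apply, hwc x hx] at h1
    · haveI : FiniteDimensional ℚ (H0 M c₀) := by
        have hle : H0 M c₀ ≤ M := fun x hx => (mem_H0.1 hx).1
        exact FiniteDimensional.of_injective (IntermediateField.inclusion hle).toLinearMap
          (IntermediateField.inclusion_injective hle)
      exact srq_sub hFH (fun x hx => mem_H0.2 ⟨hHM hx, hwc x hx⟩)
        (srq_H0 ι w F k M h hD hne 𝔣 𝔪 artF art hA hB W' hW' hS)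
  exact srq_general hartF.down hHM hFH key h0 hg

end Pool.Agent.W2helper58.SR
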