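import Pool.Agent.K4H33.SQ.Quartic

/-! Partial zeta functions over `F`. -/

set_option autoImplicit false
set_option linter.style.haveILetI false

namespace Pool.Agent.W2helper58.SR
open NumberField Module IntermediateField Pool.Agent.K4H33.SK Pool.Agent.K4H33.SQ
open Pool.Agent.K4H33.SK.Stmt (Sub Ideals nrm Cop prd principal cntAll PrimesOver)

lemma isZeta_half {a b c d : ℕ → ℕ} {B Z₁ Z₂ : ℂ → ℂ} (hB : IsZeta b B) (h₁ : IsZeta c Z₁)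
    (h₂ : IsZeta d Z₂) (e : ℂ)
    (h : ∀ n, (a n : ℂ) = 1 / 2 * ((b n : ℂ) + e * ((c n : ℂ) - d n))) :
    IsZeta a (fun s => 1 / 2 * (B s + e * (Z₁ s - Z₂ s))) := by
  constructor
  · exact (hB.1.add ((h₁.1.sub h₂.1).const_mul e)).const_mul (1 / 2)
  · intro s hs
    have h3 := ((hB.2 s hs).add (((h₁.2 s hs).sub (h₂.2 s hs)).smul e)).smul (1 / 2)
    refine (LSeriesHasSum_congr s _ (fun {n} _ => ?_)).1 h3
    rw [h n]
    simp only [Pi.smul_apply, Pi.add_apply, Pi.sub_apply, smul_eq_mul]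

lemma deriv_half {b c d : ℕ → ℕ} {B Z₁ Z₂ : ℂ → ℂ} (hB : IsZeta b B) (h₁ : IsZeta c Z₁)
    (h₂ : IsZeta d Z₂) (e : ℂ) :
    deriv (fun s => 1 / 2 * (B s + e * (Z₁ s - Z₂ s))) 0 =
      1 / 2 * (deriv B 0 + e * (deriv Z₁ 0 - deriv Z₂ 0)) := by
  have hn : ({1}ᶜ : Set ℂ) ∈ nhds (0 : ℂ) := isOpen_compl_singleton.mem_nhds (by simp)
  have d0 := (hB.1.differentiableAt hn).hasDerivAt
  have d1 := (h₁.1.differentiableAt hn).hasDerivAt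
  have d2 := (h₂.1.differentiableAt hn).hasDerivAt
  exact ((d0.add ((d1.sub d2).const_mul e)).const_mul (1 / 2)).deriv

/-- Splitting the ideals of `F` prime to `𝔣` according to their symbol on the quadratic
extension `K`. -/
lemma cnt_split {F K M : IntermediateField ℚ Qbar} [NumberField F] {𝔣 : Ideal (𝓞 F)}
    {artF : Ideal (𝓞 F) → GQ} (hart : IsArtin F M 𝔣 artF) (hle : F ≤ K)
    (hF : finrank ℚ F = 2) (hK : finrank ℚ K = 4) {σ ρ : GQ} (hσ : Fixes F σ) (hρ : Fixes F ρ)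
    (hρK : ¬ Fixes K ρ) (n : ℕ) :
    cnt F F 𝔣 artF σ n = cnt F K 𝔣 artF 1 n + cnt F K 𝔣 artF ρ n := by
  classical
  unfold cnt
  have hfin : {I : Ideal (𝓞 F) | Ideal.absNorm I = n}.Finite := Ideal.finite_setOfPred_absNorm_eq n
  have key : ∀ 𝔟 : Ideal (𝓞 F), (Ideal.absNorm 𝔟 = n ∧ IsCoprime 𝔟 𝔣 ∧ ∀ x ∈ F, artF 𝔟 x = σ x) ↔
      ((Ideal.absNorm 𝔟 = n ∧ IsCoprime 𝔟 𝔣 ∧ ∀ x ∈ K, artF 𝔟 x = (1 : GQ) x) ∨
        (Ideal.absNorm 𝔟 = n ∧ IsCoprime 𝔟 𝔣 ∧ ∀ x ∈ K, artF 𝔟 x = ρ x)) := by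
    intro 𝔟
    constructor
    · rintro ⟨h1, h2, -⟩
      have h3 : Fixes F (artF 𝔟) := hart.fix 𝔟 h2
      by_cases h : Fixes K (artF 𝔟)
      · exact Or.inl ⟨h1, h2, fun x hx => h x hx⟩
      · right
        refine ⟨h1, h2, ?_⟩
        rw [agree_iff]
        refine quadRel hle hF hK hρ.inv h3 ?_ h
        intro h4
        apply hρK
        have h5 := h4.inv
        rwa [inv_inv] at h5
    · rintro (⟨h1, h2, -⟩ | ⟨h1, h2, -⟩)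
      · exact ⟨h1, h2, fun x hx => by rw [hart.fix 𝔟 h2 x hx, hσ x hx]⟩
      · exact ⟨h1, h2, fun x hx => by rw [hart.fix 𝔟 h2 x hx, hσ x hx]⟩
  haveI f1 : Finite {𝔟 : Ideal (𝓞 F) // Ideal.absNorm 𝔟 = n ∧ IsCoprime 𝔟 𝔣 ∧
      ∀ x ∈ K, artF 𝔟 x = (1 : GQ) x} := Set.Finite.subset hfin (fun 𝔟 h => h.1)
  haveI f2 : Finite {𝔟 : Ideal (𝓞 F) // Ideal.absNorm 𝔟 = n ∧ IsCoprime 𝔟 𝔣 ∧
      ∀ x ∈ K, artF 𝔟 x = ρ x} := Set.Finite.subset hfin (fun 𝔟 h => h.1)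
  rw [← Nat.card_sum]
  refine Nat.card_congr ((Equiv.subtypeEquivRight key).trans ?_)
  refine subtypeOrEquiv _ _ ?_
  rw [Pi.disjoint_iff]
  intro 𝔟
  rw [Prop.disjoint_iff]
  by_contra hc
  obtain ⟨h1, h2⟩ := hc
  apply hρK
  intro x hx
  rw [← h2.2.2 x hx, h1.2.2 x hx, AlgEquiv.one_apply]

end Pool.Agent.W2helper58.SR
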