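import Pool.Agent.W2helper58.SR.Unit
import Pool.Agent.W2helper58.SR.Zeta

/-! Stark units over real quadratic fields from elliptic units. -/

set_option autoImplicit false
set_option linter.style.haveILetI false

namespace Pool.Agent.W2helper58.SR
open NumberField Module IntermediateField Pool.Agent.K4H33.SK Pool.Agent.K4H33.SQ
open Pool.Agent.K4H33.SK.Stmt (Sub Ideals nrm Cop prd principal cntAll PrimesOver)

/-- The rank one abelian Stark conjecture, in Tate's form, for an abelian extension `H` of a real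
quadratic field `F`, the real place of `F` given by the embedding `w` (which splits completely in
`H`), and the set `S` of places consisting of the infinite places and the primes dividing `𝔣`. -/
def StarkRealQuad (w : Qbar →+* ℂ) (F H : Sub) [NumberField F] (𝔣 : Ideals F)
    (art : Ideals F → GQ) : Prop :=
  ∃ (Z : GQ → ℂ → ℂ) (r : GQ → ℝ) (ε : Qbar), ε ∈ H ∧ IsIntegral ℤ ε ∧ IsIntegral ℤ ε⁻¹ ∧
    (∀ σ : GQ, Fixes F σ → IsZeta (Stmt.cnt F H 𝔣 art σ) (Z σ) ∧ Z σ 0 = 0 ∧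
      deriv (Z σ) 0 = (r σ : ℂ) ∧ w (σ ε) = (Real.exp (-2 * r σ) : ℂ)) ∧
    (∀ w' : Qbar →+* ℂ, (∃ x ∈ F, w' x ≠ w x) → ‖w' ε‖ = 1) ∧ AbelianRoot F 2 ε

/-- Artin's equality `L(s, χ) = L(s, ψ)` for the character `χ` of the quadratic extension `K / F`
and the two characters `ψ` of `K ⊔ k` over `k` which are nontrivial over `F ⊔ k`, on the
coefficients prime to `f`. -/
structure ArtinEquality (F K k : Sub) [NumberField F] [NumberField k] (f : ℕ) (𝔣 : Ideals F)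
    (𝔪 : Ideals k) (artF : Ideals F → GQ) (art : Ideals k → GQ) : Prop where
  eq : ∀ ρ a : GQ, Fixes F ρ → ¬ Fixes K ρ → Fixes F a → Fixes k a → ¬ Fixes K a →
    ∀ n : ℕ, n.Coprime f → (Stmt.cnt F K 𝔣 artF 1 n : ℤ) - Stmt.cnt F K 𝔣 artF ρ n =
      (Stmt.cnt k (K ⊔ k) 𝔪 art 1 n : ℤ) - Stmt.cnt k (K ⊔ k) 𝔪 art a n
  symm : ∀ τ τ' : GQ, Fixes k τ → Fixes k τ' → ¬ Fixes F τ → ¬ Fixes F τ' →
    ∀ n : ℕ, n.Coprime f → Stmt.cnt k (K ⊔ k) 𝔪 art τ n = Stmt.cnt k (K ⊔ k) 𝔪 art τ' n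

/-- The partial zeta functions of `L / F` are holomorphic away from one and have (at least) a double
zero at zero. -/
def DoubleZero (F L : Sub) [NumberField F] (𝔣 : Ideals F) (artF : Ideals F → GQ) : Prop :=
  ∀ σ : GQ, Fixes F σ → ∃ B : ℂ → ℂ, IsZeta (Stmt.cnt F L 𝔣 artF σ) B ∧ B 0 = 0 ∧ deriv B 0 = 0

theorem stark_real_quadratic (ι w : Qbar →+* ℂ) (F K k k' : Sub) [NumberField F]
    [NumberField K] [NumberField k] (f : ℕ) (ζ : Qbar) (hF : Fields ι F K k k' f ζ)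
    (hk'r : ∀ x ∈ k', (ι x).im = 0) (hw : ∀ x ∈ K, (w x).im = 0) (𝔪 : Ideals k)
    (h𝔪 : 𝔪 ≤ principal k f) (𝔣 : Ideals F) (h𝔣 : 𝔣 ≤ principal F f) (art : Ideals k → GQ)
    (hart : Stmt.IsArtin k (K ⊔ k ⊔ ℚ⟮ζ⟯) 𝔪 art) (artF : Ideals F → GQ)
    (hartF : Stmt.IsArtin F (K ⊔ ℚ⟮ζ⟯) 𝔣 artF) (hA : ArtinEquality F K k f 𝔣 𝔪 artF art)
    (hB : DoubleZero F (F ⊔ k') 𝔣 artF) (W' : ℕ) (hW' : IsTorsionOrder (K ⊔ k ⊔ k') W')
    (hS : Stmt.StarkImQuad ι k (K ⊔ k ⊔ k') 𝔪 art W') :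
    StarkRealQuad w F (K ⊔ k') 𝔣 artF := by
  classical
  have hf := hF.two_le
  haveI : NeZero f := ⟨by omega⟩
  have hζ := hF.prim
  have hk' := hF.sub
  have hN := hF.normal
  obtain ⟨c, c₀, σ₀, hD, hwσ⟩ := exists_conjW ι w hw hF.deg_k hF.normal hF.complex
  have hKF : ∀ {τ : GQ}, Fixes K τ → Fixes F τ := fun h => h.mono hF.le
  have hcF : Fixes F c := by
    intro x hx
    apply ι.injective
    rw [hD.conj]
    exact Complex.conj_eq_iff_im.2 (hF.real_F x hx)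
  have hcK : ¬ Fixes K c := fun h => hD.a_K (h.mul hD.c₀_K)
  have haF : Fixes F (c * c₀) := hcF.mul (hKF hD.c₀_K)
  have hs0F : ¬ Fixes F σ₀ := by
    intro h
    have h1 : Fixes K (c * σ₀) := quadRel hF.le hF.deg_F hF.deg_K hcF h hcK hD.s_K
    apply hD.s_K
    have h2 : σ₀ = (c * σ₀) * c₀⁻¹ := by rw [← hD.rel]; group
    rw [h2]
    exact h1.mul hD.c₀_K.inv
  have haζ : (c * c₀) ζ = ζ := hD.a_root (NeZero.ne f) hζ.pow_eq_one
  have haζ' : Fixes ℚ⟮ζ⟯ (c * c₀) := fixes_adjoin haζ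
  have hak' : Fixes k' (c * c₀) := haζ'.mono hk'
  have ha2 : Fixes (K ⊔ k ⊔ k') (c * c₀ * (c * c₀)) :=
    fixes_sup.2 ⟨fixes_sup.2 ⟨quadRel hF.le hF.deg_F hF.deg_K haF haF hD.a_K hD.a_K,
      hD.a_k.mul hD.a_k⟩, hak'.mul hak'⟩
  have hM : ζ ∈ K ⊔ k ⊔ ℚ⟮ζ⟯ :=
    (le_sup_right : ℚ⟮ζ⟯ ≤ K ⊔ k ⊔ ℚ⟮ζ⟯) (mem_adjoin_simple_self ℚ ζ)
  have hMF : ζ ∈ K ⊔ ℚ⟮ζ⟯ := (le_sup_right : ℚ⟮ζ⟯ ≤ K ⊔ ℚ⟮ζ⟯) (mem_adjoin_simple_self ℚ ζ)
  have hkE : k ≤ K ⊔ k ⊔ k' := le_sup_right.trans le_sup_left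
  obtain ⟨Z, ε, hε, hε0, hlim, hint, hab⟩ := hS
  -- symmetries of the partial zeta functions of `k`
  have hsym : ∀ τ τ' : GQ, Fixes k τ → Fixes k τ' → ¬ Fixes F τ → ¬ Fixes F τ' →
      (∀ x ∈ k', τ x = τ' x) → deriv (Z τ) 0 = deriv (Z τ') 0 := by
    intro τ τ' h1 h2 h3 h4 h5
    refine (isZeta_deriv (hlim τ h1).1 (hlim τ' h2).1 fun n _ => ?_).1
    have h : (cnt k (K ⊔ k ⊔ k') 𝔪 art τ n : ℂ) = cnt k (K ⊔ k ⊔ k') 𝔪 art τ' n := by
      rw [cnt_sup hart.down hf hζ hM h𝔪 hk', cnt_sup hart.down hf hζ hM h𝔪 hk',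
        (qq_eq_iff hζ hk').2 h5]
      by_cases hn : n.Coprime f
      · have h6 : cnt k (K ⊔ k) 𝔪 art τ n = cnt k (K ⊔ k) 𝔪 art τ' n :=
          hA.symm τ τ' h1 h2 h3 h4 n hn
        rw [h6]
      · rw [ind_not, zero_mul, zero_mul]
        rwa [ZMod.isUnit_iff_coprime]
    exact_mod_cast h
  have hcong : ∀ τ τ' : GQ, Fixes k τ → Fixes k τ' → (∀ x ∈ K ⊔ k ⊔ k', τ x = τ' x) →
      deriv (Z τ) 0 = deriv (Z τ') 0 := by
    intro τ τ' h1 h2 h3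
    exact (isZeta_deriv (hlim τ h1).1 (hlim τ' h2).1 fun n _ => cnt_congr k _ 𝔪 art h3 n).1
  -- multiplication by `a⁻¹`
  have hnotF : ∀ τ : GQ, ¬ Fixes F τ → ¬ Fixes F (τ * (c * c₀)⁻¹) := by
    intro τ h1 h2
    apply h1
    have h3 := h2.mul haF
    rwa [inv_mul_cancel_right] at h3
  have hainv : ∀ x ∈ k', (c * c₀)⁻¹ x = x := fun x hx => hak'.inv x hx
  have hsa : ∀ τ : GQ, Fixes k τ → ¬ Fixes F τ →
      deriv (Z τ) 0 = deriv (Z (τ * (c * c₀)⁻¹)) 0 := by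
    intro τ h1 h2
    exact hsym _ _ h1 (h1.mul hD.a_k.inv) h2 (hnotF τ h2) fun x hx => by
      rw [AlgEquiv.mul_apply, hainv x hx]
  obtain ⟨κ, hκE, hκ0, hκi, hκi', hcκ, hlog⟩ :=
    exists_kappa hD hkE hW'.1 hε hε0 hlim hint hab (hsa σ₀ hD.s_k hs0F)
  have hpos : ∀ g : GQ, 0 < ‖ι (g κ)‖ := by
    intro g
    rw [norm_pos_iff, Ne, map_eq_zero]
    simpa using hκ0
  have hlogR : ∀ g : GQ, Fixes k g → ∀ y : ℝ, -(deriv (Z g) 0 - deriv (Z (g * (c * c₀)⁻¹)) 0) =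
      (y : ℂ) → Real.log (‖ι (g κ)‖ ^ 2) = y := by
    intro g hg y hy
    have h1 := hlog g hg
    rw [hy] at h1
    exact_mod_cast h1
  have H : Dat ι F K k k' c c₀ σ₀ f ζ κ := by
    refine ⟨hD, by omega, hζ, hF.le, hF.deg_F, hF.deg_K, hF.deg_k, hN, hk', hF.real_F, hk'r, hκE,
      hκ0, hκi, hκi', hcκ, ?_, ?_⟩
    · intro σ hσ
      have h1 := hlog σ hσ
      have h2 := hlog (σ * (c * c₀)) (hσ.mul hD.a_k)
      have h3 : σ * (c * c₀) * (c * c₀)⁻¹ = σ := by group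
      have h4 : deriv (Z (σ * (c * c₀))) 0 = deriv (Z (σ * (c * c₀)⁻¹)) 0 := by
        refine hcong _ _ (hσ.mul hD.a_k) (hσ.mul hD.a_k.inv) fun x hx => ?_
        have h5 : (c * c₀)⁻¹ x = (c * c₀) x := by
          rw [AlgEquiv.aut_inv, AlgEquiv.symm_apply_eq]
          exact (ha2 x hx).symm
        show σ ((c * c₀) x) = σ ((c * c₀)⁻¹ x)
        rw [h5]
      rw [h3, h4] at h2
      have h5 : Real.log (‖ι ((σ * (c * c₀)) κ)‖ ^ 2) + Real.log (‖ι (σ κ)‖ ^ 2) = 0 := by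
        have : ((Real.log (‖ι ((σ * (c * c₀)) κ)‖ ^ 2) + Real.log (‖ι (σ κ)‖ ^ 2) : ℝ) : ℂ) = 0 := by
          push_cast at h1 h2 ⊢
          rw [h1, h2]
          ring
        exact_mod_cast this
      rw [← Real.log_mul (pow_ne_zero _ (hpos _).ne') (pow_ne_zero _ (hpos _).ne'), ← mul_pow] at h5
      have h6 : 0 < ‖ι ((σ * (c * c₀)) κ)‖ * ‖ι (σ κ)‖ := mul_pos (hpos _) (hpos _)
      rcases Real.log_eq_zero.1 h5 with h | h | h
      · exact absurd h (pow_ne_zero _ h6.ne')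
      · exact (pow_eq_one_iff_of_nonneg h6.le two_ne_zero).1 h
      · nlinarith [sq_nonneg (‖ι ((σ * (c * c₀)) κ)‖ * ‖ι (σ κ)‖)]
    · intro σ hσ hσF
      have h1 := hlogR σ hσ 0 (by rw [hsa σ hσ hσF]; simp)
      rcases Real.log_eq_zero.1 h1 with h | h | h
      · exact absurd h (pow_ne_zero _ (hpos _).ne')
      · exact (pow_eq_one_iff_of_nonneg (hpos _).le two_ne_zero).1 h
      · nlinarith [sq_nonneg ‖ι (σ κ)‖]
  -- choices
  have hex : ∀ σ : GQ, ∃ g : GQ, Fixes F σ → Fixes (K ⊔ k) g ∧ ∀ x ∈ k', g x = σ x := by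
    intro σ
    by_cases h : Fixes F σ
    · obtain ⟨g, hg⟩ := exists_g H h
      exact ⟨g, fun _ => hg⟩
    · exact ⟨1, fun h' => absurd h' h⟩
  choose g hg using hex
  have hexB : ∀ σ : GQ, ∃ B : ℂ → ℂ, Fixes F σ →
      IsZeta (Stmt.cnt F (F ⊔ k') 𝔣 artF σ) B ∧ B 0 = 0 ∧ deriv B 0 = 0 := by
    intro σ
    by_cases h : Fixes F σ
    · obtain ⟨B, hB'⟩ := hB σ h
      exact ⟨B, fun _ => hB'⟩
    · exact ⟨fun _ => 0, fun h' => absurd h' h⟩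
  choose B hB' using hexB
  have hgk : ∀ σ, Fixes F σ → Fixes k (g σ) := fun σ h => (fixes_sup.1 (hg σ h).1).2
  -- the coefficients
  have hcoef : ∀ (σ : GQ), Fixes F σ → ∀ (e : ℂ), (Fixes K σ ∧ e = 1 ∨ ¬ Fixes K σ ∧ e = -1) →
      ∀ n : ℕ, (Stmt.cnt F (K ⊔ k') 𝔣 artF σ n : ℂ) = 1 / 2 *
        ((Stmt.cnt F (F ⊔ k') 𝔣 artF σ n : ℂ) + e *
          ((cnt k (K ⊔ k ⊔ k') 𝔪 art (g σ) n : ℂ) -
            cnt k (K ⊔ k ⊔ k') 𝔪 art (g σ * (c * c₀)⁻¹) n)) := by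
    intro σ hσ e he n
    have e1 : (Stmt.cnt F (K ⊔ k') 𝔣 artF σ n : ℂ) =
        ind (pp hζ k') (qq hζ k' σ) n * cnt F K 𝔣 artF σ n :=
      cnt_sup hartF.down hf hζ hMF h𝔣 hk' K σ n
    have e2 : (Stmt.cnt F (F ⊔ k') 𝔣 artF σ n : ℂ) =
        ind (pp hζ k') (qq hζ k' σ) n * cnt F F 𝔣 artF σ n :=
      cnt_sup hartF.down hf hζ hMF h𝔣 hk' F σ n
    have q1 : qq hζ k' (g σ) = qq hζ k' σ := (qq_eq_iff hζ hk').2 (hg σ hσ).2
    have q2 : qq hζ k' (g σ * (c * c₀)⁻¹) = qq hζ k' σ := by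
      rw [qq_eq_iff hζ hk']
      intro x hx
      rw [AlgEquiv.mul_apply, hainv x hx, (hg σ hσ).2 x hx]
    rw [e1, e2, cnt_sup hart.down hf hζ hM h𝔪 hk', cnt_sup hart.down hf hζ hM h𝔪 hk', q1, q2]
    by_cases hn : n.Coprime f
    · have s1 : cnt F F 𝔣 artF σ n = cnt F K 𝔣 artF 1 n + cnt F K 𝔣 artF c n :=
        cnt_split hartF.down hF.le hF.deg_F hF.deg_K hσ hcF hcK n
      have s2 : (cnt F K 𝔣 artF 1 n : ℤ) - cnt F K 𝔣 artF c n =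
          (cnt k (K ⊔ k) 𝔪 art 1 n : ℤ) - cnt k (K ⊔ k) 𝔪 art (c * c₀)⁻¹ n := by
        refine hA.eq c (c * c₀)⁻¹ hcF hcK haF.inv hD.a_k.inv ?_ n hn
        intro h
        apply hD.a_K
        have h2 := h.inv
        rwa [inv_inv] at h2
      have s3 : cnt k (K ⊔ k) 𝔪 art (g σ) n = cnt k (K ⊔ k) 𝔪 art 1 n :=
        cnt_congr k _ 𝔪 art (fun x hx => (hg σ hσ).1 x hx) n
      have s4 : cnt k (K ⊔ k) 𝔪 art (g σ * (c * c₀)⁻¹) n =
          cnt k (K ⊔ k) 𝔪 art (c * c₀)⁻¹ n := by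
        refine cnt_congr k _ 𝔪 art (fun x hx => ?_) n
        rw [AlgEquiv.mul_apply]
        exact (hg σ hσ).1 _ (normal_mem hN _ hx)
      have s2' : (cnt F K 𝔣 artF 1 n : ℂ) - cnt F K 𝔣 artF c n =
          (cnt k (K ⊔ k) 𝔪 art 1 n : ℂ) - cnt k (K ⊔ k) 𝔪 art (c * c₀)⁻¹ n := by
        exact_mod_cast s2
      have s6 : ∀ I : ℂ, I * (cnt k (K ⊔ k) 𝔪 art 1 n : ℂ) -
          I * cnt k (K ⊔ k) 𝔪 art (c * c₀)⁻¹ n =
          I * ((cnt F K 𝔣 artF 1 n : ℂ) - cnt F K 𝔣 artF c n) := by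
        intro I
        rw [← mul_sub, ← s2']
      rw [s1, s3, s4, s6]
      rcases he with ⟨h, rfl⟩ | ⟨h, rfl⟩
      · have s5 : cnt F K 𝔣 artF σ n = cnt F K 𝔣 artF 1 n :=
          cnt_congr F _ 𝔣 artF (fun x hx => h x hx) n
        rw [s5]
        push_cast
        ring
      · have s5 : cnt F K 𝔣 artF σ n = cnt F K 𝔣 artF c n := by
          refine cnt_congr F _ 𝔣 artF ?_ n
          rw [agree_iff]
          refine quadRel hF.le hF.deg_F hF.deg_K hcF.inv hσ ?_ h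
          intro h2
          apply hcK
          have h3 := h2.inv
          rwa [inv_inv] at h3
        rw [s5]
        push_cast
        ring
    · have h0 : ∀ x, ind (pp hζ k') x ((n : ℕ) : ZMod f) = 0 := fun x => by
        apply ind_not
        rwa [ZMod.isUnit_iff_coprime]
      rw [h0]
      ring
  -- the functions
  have ha1 : ∀ σ, Fixes F σ → Fixes k (g σ * (c * c₀)⁻¹) := fun σ h => (hgk σ h).mul hD.a_k.inv
  let e : GQ → ℂ := fun σ => if Fixes K σ then 1 else -1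
  have he : ∀ σ, Fixes K σ ∧ e σ = 1 ∨ ¬ Fixes K σ ∧ e σ = -1 := by
    intro σ
    by_cases h : Fixes K σ
    · exact Or.inl ⟨h, if_pos h⟩
    · exact Or.inr ⟨h, if_neg h⟩
  let eR : GQ → ℝ := fun σ => if Fixes K σ then 1 else -1
  have heR : ∀ σ, e σ = (eR σ : ℂ) := by
    intro σ
    simp only [e, eR]
    split_ifs <;> simp
  refine ⟨fun σ s => 1 / 2 * (B σ s + e σ * (Z (g σ) s - Z (g σ * (c * c₀)⁻¹) s)),
    fun σ => -(1 / 2) * (eR σ * Real.log (‖ι (g σ κ)‖ ^ 2)), σ₀⁻¹ κ * c₀ (σ₀⁻¹ κ), eta_H H,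
    eta_integral H, eta_integral' H, ?_, ?_, eta_root H⟩
  · intro σ hσ
    obtain ⟨b1, b2, b3⟩ := hB' σ hσ
    obtain ⟨z1, z2, -⟩ := hlim _ (hgk σ hσ)
    obtain ⟨y1, y2, -⟩ := hlim _ (ha1 σ hσ)
    refine ⟨isZeta_half b1 z1 y1 (e σ) (hcoef σ hσ _ (he σ)), ?_, ?_, ?_⟩
    · show 1 / 2 * (B σ 0 + e σ * (Z (g σ) 0 - Z (g σ * (c * c₀)⁻¹) 0)) = 0
      rw [b2, z2, y2]
      ring
    · rw [deriv_half b1 z1 y1 (e σ), b3, heR]
      have h1 := hlog _ (hgk σ hσ)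
      have h2 : deriv (Z (g σ)) 0 - deriv (Z (g σ * (c * c₀)⁻¹)) 0 =
          -(Real.log (‖ι (g σ κ)‖ ^ 2) : ℂ) := by
        rw [h1, neg_neg]
      rw [h2]
      push_cast
      ring
    · have hval := eta_val H (hg σ hσ).1
      have hreal : ∀ y : ℝ, ι (σ₀ (σ (σ₀⁻¹ κ * c₀ (σ₀⁻¹ κ)))) = (y : ℂ) →
          w (σ (σ₀⁻¹ κ * c₀ (σ₀⁻¹ κ))) = (y : ℂ) := by
        intro y hy
        rcases hwσ with h | h
        · rw [h, hy]
        · rw [h, hy, Complex.conj_ofReal]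
      apply hreal
      have hsq : 0 < ‖ι (g σ κ)‖ ^ 2 := pow_pos (hpos _) 2
      rcases eta_act H hσ (hg σ hσ).1 (hg σ hσ).2 with ⟨h1, h2⟩ | ⟨h1, h2⟩
      · rw [h1, hval]
        congr 1
        have h3 : eR σ = 1 := if_pos h2
        beta_reduce
        rw [h3]
        have h4 : -2 * (-(1 / 2) * (1 * Real.log (‖ι (g σ κ)‖ ^ 2))) =
            Real.log (‖ι (g σ κ)‖ ^ 2) := by ring
        rw [h4, Real.exp_log hsq]
      · rw [h1, map_inv₀, map_inv₀, hval]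
        have h3 : eR σ = -1 := if_neg h2
        beta_reduce
        rw [h3]
        have h4 : -2 * (-(1 / 2) * (-1 * Real.log (‖ι (g σ κ)‖ ^ 2))) =
            -Real.log (‖ι (g σ κ)‖ ^ 2) := by ring
        rw [h4, Real.exp_neg, Real.exp_log hsq]
        push_cast
        rfl
  · rintro w' ⟨x, hx, hne⟩
    obtain ⟨σ, hσ⟩ := exists_lift ι w'
    have h1 : Fixes F σ := by
      by_contra hc
      apply hne
      have h2 : Fixes F (σ₀⁻¹ * σ) := by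
        refine quad hF.deg_F (fun h => hs0F ?_) hc
        have h3 := h.inv
        rwa [inv_inv] at h3
      have h3 : σ x = σ₀ x := by
        have h4 := h2 x hx
        rwa [AlgEquiv.mul_apply, AlgEquiv.aut_inv, AlgEquiv.symm_apply_eq] at h4
      have h4 : (ι (σ₀ x)).im = 0 :=
        hF.real_F _ (normal_mem (quad_normal hF.deg_F) σ₀ hx)
      rcases hwσ with h | h
      · rw [h, hσ, h3]
      · rw [h, hσ, h3, Complex.conj_eq_iff_im.2 h4]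
    rw [hσ]
    exact eta_off H h1

end Pool.Agent.W2helper58.SR
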