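import Pool.Agent.W2helper58.SR.Main

/-! Enlarging the set of places. -/

set_option autoImplicit false
set_option linter.style.haveILetI false

namespace Pool.Agent.W2helper58.SR
open NumberField Module IntermediateField Pool.Agent.K4H33.SK Pool.Agent.K4H33.SQ
open Pool.Agent.K4H33.SK.Stmt (Sub Ideals nrm Cop prd principal cntAll PrimesOver)

lemma srq_modulus {w : Qbar →+* ℂ} {F H : IntermediateField ℚ Qbar} [NumberField F]
    {𝔤 𝔤' : Ideal (𝓞 F)} {art : Ideal (𝓞 F) → GQ}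
    (h : ∀ 𝔟 : Ideal (𝓞 F), IsCoprime 𝔟 𝔤 ↔ IsCoprime 𝔟 𝔤') (hS : StarkRealQuad w F H 𝔤 art) :
    StarkRealQuad w F H 𝔤' art := by
  obtain ⟨Z, r, ε, h1, h2, h3, h4, h5⟩ := hS
  refine ⟨Z, r, ε, h1, h2, h3, ?_, h5⟩
  have h6 : Stmt.cnt F H 𝔤' art = Stmt.cnt F H 𝔤 art := by
    funext σ n
    exact (cnt_modulus art h σ n).symm
  rw [h6]
  exact h4

lemma srq_prime {w : Qbar →+* ℂ} {F H M : IntermediateField ℚ Qbar} [NumberField F]
    {𝔪 𝔤 P : Ideal (𝓞 F)} {art : Ideal (𝓞 F) → GQ} (hart : IsArtin F M 𝔪 art) (hLM : H ≤ M)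
    (hFH : F ≤ H) (hc : ∀ 𝔟 : Ideal (𝓞 F), IsCoprime 𝔟 𝔤 → IsCoprime 𝔟 𝔪) (hP : P.IsPrime)
    (hP0 : P ≠ ⊥) (hPg : IsCoprime P 𝔤) (hS : StarkRealQuad w F H 𝔤 art) :
    StarkRealQuad w F H (𝔤 * P) art := by
  obtain ⟨Z, r, ε, h1, h2, h3, h4, h5, h6⟩ := hS
  have hε : ε ≠ 0 := by
    rintro rfl
    have h7 := (h4 1 (Fixes.one F)).2.2.2
    rw [map_zero, map_zero] at h7
    have h8 : Real.exp (-2 * r 1) = 0 := by exact_mod_cast h7.symm
    exact (Real.exp_pos _).ne' h8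
  have hρ : Fixes F (art P)⁻¹ := Fixes.inv (hart.fix P (hc P hPg))
  set ρ : GQ := (art P)⁻¹ with hρdef
  have hPn : Ideal.absNorm P ≠ 0 := by
    rw [Ne, Ideal.absNorm_eq_zero_iff]
    exact hP0
  have hPn' : (Ideal.absNorm P : ℂ) ≠ 0 := Nat.cast_ne_zero.2 hPn
  have hd : Differentiable ℂ (fun s : ℂ => (Ideal.absNorm P : ℂ) ^ (-s)) :=
    (differentiable_id.neg).const_cpow (Or.inl hPn')
  have hρ0 : ρ ε ≠ 0 := by simpa using hε
  have hρH : ρ ε ∈ H := by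
    apply mem_of_fixed
    intro σ hσ
    rw [comm_of_root two_pos h6 (hσ.mono hFH) hρ, hσ ε h1]
  refine ⟨fun σ s => Z σ s - (Ideal.absNorm P : ℂ) ^ (-s) * Z (ρ * σ) s,
    fun σ => r σ - r (ρ * σ), ε / ρ ε, H.div_mem h1 hρH, ?_, ?_, ?_, ?_,
    abelianRoot_div two_pos hε h6 hρ⟩
  · rw [div_eq_mul_inv, ← map_inv₀]
    exact h2.mul (h3.map (ρ : Qbar →+* Qbar).toIntAlgHom)
  · rw [inv_div, div_eq_mul_inv]
    exact (h2.map (ρ : Qbar →+* Qbar).toIntAlgHom).mul h3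
  · intro σ hσ
    have g1 := h4 σ hσ
    have g2 := h4 (ρ * σ) (hρ.mul hσ)
    refine ⟨⟨?_, ?_⟩, ?_, ?_, ?_⟩
    · exact g1.1.1.sub (hd.differentiableOn.mul g2.1.1)
    · intro s hs
      have g3 := (g1.1.2 s hs).sub (hasSum_shift hPn (g2.1.2 s hs))
      refine (LSeriesHasSum_congr s _ (fun {n} _ => ?_)).1 g3
      have g4 : cnt F H 𝔤 art σ n = cnt F H (𝔤 * P) art σ n +
        (if Ideal.absNorm P ∣ n then cnt F H 𝔤 art (ρ * σ) (n / Ideal.absNorm P) else 0) :=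
        cnt_prime hart hLM hc hP hP0 hPg σ n
      have g5 : (Stmt.cnt F H 𝔤 art σ n : ℂ) = (cnt F H (𝔤 * P) art σ n : ℂ) +
        (if Ideal.absNorm P ∣ n then (cnt F H 𝔤 art (ρ * σ) (n / Ideal.absNorm P) : ℂ) else 0) := by
        have : Stmt.cnt F H 𝔤 art σ n = cnt F H 𝔤 art σ n := rfl
        rw [this, g4]
        push_cast
        split_ifs <;> simp
      rw [Pi.sub_apply, g5]
      have g6 : (Stmt.cnt F H (𝔤 * P) art σ n : ℂ) = (cnt F H (𝔤 * P) art σ n : ℂ) := rfl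
      have g7 : ∀ m, (Stmt.cnt F H 𝔤 art (ρ * σ) m : ℂ) = (cnt F H 𝔤 art (ρ * σ) m : ℂ) :=
        fun m => rfl
      rw [g6]
      simp only [g7]
      split_ifs <;> ring
    · beta_reduce
      rw [g1.2.1, g2.2.1]
      ring
    · have hn : ({1}ᶜ : Set ℂ) ∈ nhds (0 : ℂ) := isOpen_compl_singleton.mem_nhds (by simp)
      have d1 := (g1.1.1.differentiableAt hn).hasDerivAt
      have d2 := (g2.1.1.differentiableAt hn).hasDerivAt
      have d3 := (hd 0).hasDerivAt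
      have g5 := (d1.sub (d3.mul d2)).deriv
      refine Eq.trans g5 ?_
      rw [g2.2.1, mul_zero, zero_add, neg_zero, Complex.cpow_zero, one_mul, g1.2.2.1, g2.2.2.1]
      push_cast
      ring
    · have e1 := g1.2.2.2
      have e2 := g2.2.2.2
      have e3 : σ (ρ ε) = (ρ * σ) ε := comm_of_root two_pos h6 hσ hρ
      rw [map_div₀, map_div₀, e3, e1, e2]
      rw [← Complex.ofReal_div, ← Real.exp_sub]
      congr 2
      ring
  · rintro w' ⟨x, hx, hne⟩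
    have h8 : ‖(w'.comp (ρ : Qbar →+* Qbar)) ε‖ = 1 := by
      refine h5 _ ⟨x, hx, ?_⟩
      have h9 : (w'.comp (ρ : Qbar →+* Qbar)) x = w' x := congrArg w' (hρ x hx)
      rw [h9]
      exact hne
    have h9 : (w'.comp (ρ : Qbar →+* Qbar)) ε = w' (ρ ε) := rfl
    rw [h9] at h8
    rw [map_div₀, norm_div, h5 w' ⟨x, hx, hne⟩, h8, div_one]

lemma srq_mul {w : Qbar →+* ℂ} {F H M : IntermediateField ℚ Qbar} [NumberField F]
    {𝔪 : Ideal (𝓞 F)} {art : Ideal (𝓞 F) → GQ} (hart : IsArtin F M 𝔪 art) (hLM : H ≤ M)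
    (hFH : F ≤ H) (hS : StarkRealQuad w F H 𝔪 art) (𝔟 : Ideal (𝓞 F)) :
    𝔟 ≠ 0 → StarkRealQuad w F H (𝔪 * 𝔟) art := by
  induction 𝔟 using UniqueFactorizationMonoid.induction_on_prime with
  | h₁ => exact fun h => absurd rfl h
  | h₂ 𝔟 hu =>
    intro _
    have h1 : 𝔟 = 1 := by
      rw [Ideal.isUnit_iff] at hu
      rw [hu, Ideal.one_eq_top]
    rw [h1, mul_one]
    exact hS
  | h₃ 𝔟 P h0 hp ih =>
    intro _
    have ih := ih h0
    have hP : P.IsPrime := Ideal.isPrime_of_prime hp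
    have hP0 : P ≠ ⊥ := hp.ne_zero
    have e : 𝔪 * (P * 𝔟) = 𝔪 * 𝔟 * P := by rw [mul_comm P, mul_assoc]
    rw [e]
    by_cases hPg : IsCoprime P (𝔪 * 𝔟)
    · exact srq_prime hart hLM hFH (fun 𝔠 h => (IsCoprime.mul_right_iff.1 h).1) hP hP0 hPg ih
    · refine srq_modulus (fun 𝔠 => ?_) ih
      rw [IsCoprime.mul_right_iff (x := 𝔠) (y := 𝔪 * 𝔟) (z := P)]
      refine ⟨fun h => ⟨h, ?_⟩, fun h => h.1⟩
      rw [isCoprime_comm, isCoprime_prime_iff hP hP0, not_not] at hPg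
      rw [Ideal.isCoprime_iff_exists] at h ⊢
      obtain ⟨i, hi, j, hj, hij⟩ := h
      exact ⟨i, hi, j, hPg hj, hij⟩

/-- Arbitrary nonzero moduli divisible by the primes dividing `𝔣`. -/
lemma srq_general {w : Qbar →+* ℂ} {F H M : IntermediateField ℚ Qbar} [NumberField F]
    {𝔣 𝔤 : Ideal (𝓞 F)} {art : Ideal (𝓞 F) → GQ} (hart : IsArtin F M 𝔣 art) (hLM : H ≤ M)
    (hFH : F ≤ H) (hS : StarkRealQuad w F H 𝔣 art) (h0 : 𝔤 ≠ ⊥)
    (hg : ∀ P : Ideal (𝓞 F), P.IsPrime → 𝔣 ≤ P → 𝔤 ≤ P) : StarkRealQuad w F H 𝔤 art := by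
  refine srq_modulus (fun 𝔟 => ?_) (srq_mul hart hLM hFH hS 𝔤 h0)
  rw [IsCoprime.mul_right_iff]
  refine ⟨fun h => h.2, fun h => ⟨?_, h⟩⟩
  rw [Ideal.isCoprime_iff_sup_eq]
  by_contra hne
  obtain ⟨P, hP, hle⟩ := Ideal.exists_le_maximal _ hne
  have hf' : 𝔤 ≤ P := hg P hP.isPrime (le_sup_right.trans hle)
  apply hP.ne_top
  rw [Ideal.eq_top_iff_one]
  obtain ⟨i, hi, j, hj, hij⟩ := Ideal.isCoprime_iff_exists.1 h
  rw [← hij]
  exact P.add_mem (hle ((le_sup_left : 𝔟 ≤ 𝔟 ⊔ _) hi)) (hf' hj)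

end Pool.Agent.W2helper58.SR
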