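import Pool.Agent.W2helper58.SR.Prime

/-! Subextensions. -/

set_option autoImplicit false
set_option linter.style.haveILetI false

namespace Pool.Agent.W2helper58.SR
open NumberField Module IntermediateField Pool.Agent.K4H33.SK Pool.Agent.K4H33.SQ
open Pool.Agent.K4H33.SK.Stmt (Sub Ideals nrm Cop prd principal cntAll PrimesOver)

section

variable (H H' : IntermediateField ℚ Qbar)

/-- The restrictions to `H` of the automorphisms fixing `H'`. -/
def Res : Type := {φ : H →ₐ[ℚ] Qbar // ∃ τ : GQ, Fixes H' τ ∧ ∀ x : H, φ x = τ x}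

noncomputable instance [FiniteDimensional ℚ H] : Fintype (Res H H') := by
  haveI : Finite (H →ₐ[ℚ] Qbar) := inferInstance
  exact Fintype.ofFinite {φ : H →ₐ[ℚ] Qbar // ∃ τ : GQ, Fixes H' τ ∧ ∀ x : H, φ x = τ x}

variable {H H'}

/-- A chosen automorphism. -/
noncomputable def rep (φ : Res H H') : GQ := φ.2.choose

lemma rep_fix (φ : Res H H') : Fixes H' (rep φ) := φ.2.choose_spec.1

lemma rep_val (φ : Res H H') (x : H) : φ.1 x = rep φ x := φ.2.choose_spec.2 x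

/-- The class of an automorphism fixing `H'`. -/
noncomputable def cls (τ : GQ) (hτ : Fixes H' τ) : Res H H' :=
  ⟨(τ : Qbar →ₐ[ℚ] Qbar).comp H.val, τ, hτ, fun _ => rfl⟩

lemma rep_cls {τ : GQ} (hτ : Fixes H' τ) : ∀ x ∈ H, rep (cls (H := H) τ hτ) x = τ x := by
  intro x hx
  have h1 := rep_val (cls (H := H) τ hτ) ⟨x, hx⟩
  exact h1.symm

lemma cls_eq {τ : GQ} (hτ : Fixes H' τ) {φ : Res H H'} (h : ∀ x ∈ H, τ x = rep φ x) :
    cls τ hτ = φ := by
  apply Subtype.ext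
  ext x
  rw [rep_val φ x, ← h x x.2]
  rfl

lemma cnt_sub {F : IntermediateField ℚ Qbar} [NumberField F] [FiniteDimensional ℚ H]
    {𝔤 : Ideal (𝓞 F)} {art : Ideal (𝓞 F) → GQ} (hH : H' ≤ H) (σ : GQ) (n : ℕ) :
    cnt F H' 𝔤 art σ n = ∑ φ : Res H H', cnt F H 𝔤 art (σ * rep φ) n := by
  classical
  unfold cnt
  have hfin : {I : Ideal (𝓞 F) | Ideal.absNorm I = n}.Finite := Ideal.finite_setOfPred_absNorm_eq n
  haveI : ∀ φ : Res H H', Finite {𝔟 : Ideal (𝓞 F) // Ideal.absNorm 𝔟 = n ∧ IsCoprime 𝔟 𝔤 ∧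
      ∀ x ∈ H, art 𝔟 x = (σ * rep φ) x} := fun φ => Set.Finite.subset hfin (fun 𝔟 h => h.1)
  rw [← Nat.card_sigma]
  have key : ∀ 𝔟 : Ideal (𝓞 F), (∀ x ∈ H', art 𝔟 x = σ x) → Fixes H' (σ⁻¹ * art 𝔟) := by
    intro 𝔟 h
    exact agree_iff.1 h
  refine Nat.card_congr ⟨fun 𝔟 => ⟨cls (σ⁻¹ * art 𝔟.1) (key 𝔟.1 𝔟.2.2.2), 𝔟.1, 𝔟.2.1, 𝔟.2.2.1, ?_⟩,
    fun p => ⟨p.2.1, p.2.2.1, p.2.2.2.1, ?_⟩, ?_, ?_⟩
  · intro x hx
    rw [AlgEquiv.mul_apply, rep_cls _ x hx, AlgEquiv.mul_apply, AlgEquiv.aut_inv,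
      AlgEquiv.apply_symm_apply]
  · intro x hx
    rw [p.2.2.2.2 x (hH hx), AlgEquiv.mul_apply, rep_fix p.1 x hx]
  · intro 𝔟
    rfl
  · rintro ⟨φ, 𝔟, h1, h2, h3⟩
    have h4 : cls (H := H) (σ⁻¹ * art 𝔟) (key 𝔟 (fun x hx => by
        rw [h3 x (hH hx), AlgEquiv.mul_apply, rep_fix φ x hx])) = φ := by
      refine cls_eq _ fun x hx => ?_
      rw [AlgEquiv.mul_apply, h3 x hx, AlgEquiv.mul_apply, AlgEquiv.aut_inv,
        AlgEquiv.symm_apply_apply]
    exact Sigma.subtype_ext h4 rfl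

/-- The conjecture for subextensions. -/
lemma srq_sub {w : Qbar →+* ℂ} {F : IntermediateField ℚ Qbar} [NumberField F]
    [FiniteDimensional ℚ H] {𝔤 : Ideal (𝓞 F)} {art : Ideal (𝓞 F) → GQ} (hFH : F ≤ H')
    (hH : H' ≤ H) (hS : StarkRealQuad w F H 𝔤 art) : StarkRealQuad w F H' 𝔤 art := by
  classical
  obtain ⟨Z, r, ε, h1, h2, h3, h4, h5, h6⟩ := hS
  have hε : ε ≠ 0 := by
    rintro rfl
    have h7 := (h4 1 (Fixes.one F)).2.2.2
    rw [map_zero, map_zero] at h7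
    have h8 : Real.exp (-2 * r 1) = 0 := by exact_mod_cast h7.symm
    exact (Real.exp_pos _).ne' h8
  have hrF : ∀ φ : Res H H', Fixes F (rep φ) := fun φ => (rep_fix φ).mono hFH
  have hz : ∀ σ : GQ, Fixes F σ → ∀ φ : Res H H', Fixes F (σ * rep φ) := fun σ hσ φ =>
    hσ.mul (hrF φ)
  refine ⟨fun σ s => ∑ φ : Res H H', Z (σ * rep φ) s, fun σ => ∑ φ : Res H H', r (σ * rep φ),
    ∏ φ : Res H H', rep φ ε, ?_, ?_, ?_, ?_, ?_, ?_⟩
  · apply mem_of_fixed
    intro τ hτ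
    rw [map_prod]
    let e : Res H H' → Res H H' := fun φ => cls (τ * rep φ) (hτ.mul (rep_fix φ))
    have he : Function.Bijective e := by
      rw [Fintype.bijective_iff_injective_and_card]
      refine ⟨fun φ ψ h => ?_, rfl⟩
      have h7 : ∀ x ∈ H, (τ * rep φ) x = (τ * rep ψ) x := by
        intro x hx
        rw [← rep_cls (hτ.mul (rep_fix φ)) x hx, ← rep_cls (hτ.mul (rep_fix ψ)) x hx]
        exact congrArg (fun ρ : Res H H' => rep ρ x) h
      apply Subtype.ext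
      ext x
      rw [rep_val, rep_val]
      exact τ.injective (h7 x x.2)
    refine Fintype.prod_bijective e he _ _ fun φ => ?_
    exact (rep_cls (hτ.mul (rep_fix φ)) ε h1).symm
  · exact IsIntegral.prod _ fun φ _ => h2.map ((rep φ : GQ) : Qbar →+* Qbar).toIntAlgHom
  · rw [← Finset.prod_inv_distrib]
    refine IsIntegral.prod _ fun φ _ => ?_
    rw [← map_inv₀]
    exact h3.map ((rep φ : GQ) : Qbar →+* Qbar).toIntAlgHom
  · intro σ hσ
    have hh := fun φ : Res H H' => h4 (σ * rep φ) (hz σ hσ φ)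
    refine ⟨⟨?_, ?_⟩, ?_, ?_, ?_⟩
    · exact DifferentiableOn.fun_sum fun φ _ => (hh φ).1.1
    · intro s hs
      have g1 := LSeriesHasSum.sum (S := (Finset.univ : Finset (Res H H')))
        (f := fun φ n => (Stmt.cnt F H 𝔤 art (σ * rep φ) n : ℂ)) (fun φ _ => (hh φ).1.2 s hs)
      refine (LSeriesHasSum_congr s _ (fun {n} _ => ?_)).1 g1
      have g2 : Stmt.cnt F H' 𝔤 art σ n = ∑ φ : Res H H', cnt F H 𝔤 art (σ * rep φ) n :=
        cnt_sub hH σ n
      rw [g2, Finset.sum_apply]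
      push_cast
      rfl
    · exact Finset.sum_eq_zero fun φ _ => (hh φ).2.1
    · have hn : ({1}ᶜ : Set ℂ) ∈ nhds (0 : ℂ) := isOpen_compl_singleton.mem_nhds (by simp)
      rw [deriv_fun_sum fun φ _ => (hh φ).1.1.differentiableAt hn]
      push_cast
      exact Finset.sum_congr rfl fun φ _ => (hh φ).2.2.1
    · rw [map_prod, map_prod, Finset.mul_sum, Real.exp_sum]
      push_cast
      refine Finset.prod_congr rfl fun φ _ => ?_
      have g1 := (hh φ).2.2.2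
      rw [AlgEquiv.mul_apply] at g1
      rw [g1]
      push_cast
      rfl
  · rintro w' ⟨x, hx, hne⟩
    rw [map_prod, norm_prod]
    refine Finset.prod_eq_one fun φ _ => ?_
    have h8 : ‖(w'.comp ((rep φ : GQ) : Qbar →+* Qbar)) ε‖ = 1 := by
      refine h5 _ ⟨x, hx, ?_⟩
      have h9 : (w'.comp ((rep φ : GQ) : Qbar →+* Qbar)) x = w' x := congrArg w' (hrF φ x hx)
      rw [h9]
      exact hne
    exact h8
  · intro mu hmu σ τ hσ hτ
    obtain ⟨lam, hlam⟩ := IsAlgClosed.exists_pow_nat_eq ε two_pos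
    have hlam0 : lam ≠ 0 := by
      rintro rfl
      rw [zero_pow two_ne_zero] at hlam
      exact hε hlam.symm
    set ν : Qbar := ∏ φ : Res H H', rep φ lam with hν
    have hν2 : ν ^ 2 = ∏ φ : Res H H', rep φ ε := by
      rw [hν, ← Finset.prod_pow]
      exact Finset.prod_congr rfl fun φ _ => by rw [← map_pow, hlam]
    have hc : σ (τ ν) = τ (σ ν) := by
      rw [hν, map_prod, map_prod, map_prod, map_prod]
      refine Finset.prod_congr rfl fun φ _ => ?_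
      have e1 : σ ((τ * rep φ) lam) = (τ * rep φ) (σ lam) :=
        h6 lam hlam σ _ hσ (hτ.mul (hrF φ))
      have e2 : σ (rep φ lam) = rep φ (σ lam) := h6 lam hlam σ _ hσ (hrF φ)
      rw [AlgEquiv.mul_apply, AlgEquiv.mul_apply] at e1
      rw [e1, e2]
    have hmu2 : mu = ν ∨ mu = -ν := by
      rw [← hν2] at hmu
      exact sq_eq_sq_iff_eq_or_eq_neg.1 hmu
    rcases hmu2 with h | h
    · rw [h, hc]
    · rw [h, map_neg, map_neg, map_neg, map_neg, hc]

end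

end Pool.Agent.W2helper58.SR
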