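import Pool.Agent.W2helper58.SR.Gal

/-! The unit `η` of `K ⊔ k'` built from `κ`. -/

set_option autoImplicit false
set_option linter.style.haveILetI false

namespace Pool.Agent.W2helper58.SR
open NumberField Module IntermediateField Pool.Agent.K4H33.SK Pool.Agent.K4H33.SQ
open Pool.Agent.K4H33.SK.Stmt (Sub Ideals nrm Cop prd principal cntAll PrimesOver)

/-- The data. -/
structure Dat (ι : Qbar →+* ℂ) (F K k k' : IntermediateField ℚ Qbar) (c c₀ σ₀ : GQ) (f : ℕ)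
    (ζ κ : Qbar) : Prop where
  D : ConjData ι K k c c₀ σ₀
  f0 : f ≠ 0
  prim : IsPrimitiveRoot ζ f
  le : F ≤ K
  deg_F : finrank ℚ F = 2
  deg_K : finrank ℚ K = 4
  deg_k : finrank ℚ k = 2
  normal : Normal ℚ ↥(K ⊔ k)
  sub : k' ≤ ℚ⟮ζ⟯
  real_F : ∀ x ∈ F, (ι x).im = 0
  real_k' : ∀ x ∈ k', (ι x).im = 0
  κE : κ ∈ K ⊔ k ⊔ k'
  κ0 : κ ≠ 0
  κi : IsIntegral ℤ κ
  κi' : IsIntegral ℤ κ⁻¹
  cκ : c₀ κ = κ⁻¹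
  inv : ∀ σ, Fixes k σ → ‖ι ((σ * (c * c₀)) κ)‖ * ‖ι (σ κ)‖ = 1
  one : ∀ σ, Fixes k σ → ¬ Fixes F σ → ‖ι (σ κ)‖ = 1

section

variable {ι : Qbar →+* ℂ} {F K k k' : IntermediateField ℚ Qbar} {c c₀ σ₀ : GQ}
  {f : ℕ} {ζ κ : Qbar} (H : Dat ι F K k k' c c₀ σ₀ f ζ κ)

include H

lemma cF : Fixes F c := by
  intro x hx
  apply ι.injective
  rw [H.D.conj]
  exact Complex.conj_eq_iff_im.2 (H.real_F x hx)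

lemma ck' : Fixes k' c := by
  intro x hx
  apply ι.injective
  rw [H.D.conj]
  exact Complex.conj_eq_iff_im.2 (H.real_k' x hx)

lemma c₀k' : Fixes k' c₀ := by
  haveI : NeZero f := ⟨H.f0⟩
  intro x hx
  rw [H.D.c₀_eq, AlgEquiv.mul_apply, AlgEquiv.mul_apply, AlgEquiv.aut_inv, AlgEquiv.symm_apply_eq,
    comm_adjoin H.prim c σ₀ x (H.sub hx), ck' H x hx]

lemma c₀F : Fixes F c₀ := H.D.c₀_K.mono H.le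

lemma cK : ¬ Fixes K c := fun h => H.D.a_K (h.mul H.D.c₀_K)

lemma ck : ¬ Fixes k c := by
  intro h
  apply H.D.c₀_k
  have h1 := h.inv.mul H.D.a_k
  rwa [inv_mul_cancel_left] at h1

lemma s0F : ¬ Fixes F σ₀ := by
  intro h
  have h1 : Fixes K (c * σ₀) := quadRel H.le H.deg_F H.deg_K (cF H) h (cK H) H.D.s_K
  apply H.D.s_K
  have h2 : σ₀ = (c * σ₀) * c₀⁻¹ := by rw [← H.D.rel]; group
  rw [h2]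
  exact h1.mul H.D.c₀_K.inv

lemma commM {σ τ : GQ} (hσ : Fixes F σ) (hτ : Fixes F τ) {x : Qbar} (hx : x ∈ K ⊔ k ⊔ k') :
    σ (τ x) = τ (σ x) := by
  haveI : NeZero f := ⟨H.f0⟩
  exact comm_F H.prim H.le H.deg_F H.deg_K H.deg_k H.sub hσ hτ x hx

lemma stableM (g : GQ) {x : Qbar} (hx : x ∈ K ⊔ k ⊔ k') : g x ∈ K ⊔ k ⊔ k' := by
  haveI : NeZero f := ⟨H.f0⟩
  exact stable H.prim H.normal H.sub g hx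

lemma norm_c (σ : GQ) (x : Qbar) : ‖ι ((c * σ) x)‖ = ‖ι (σ x)‖ := by
  rw [AlgEquiv.mul_apply, H.D.conj, Complex.norm_conj]

/-- The conjugate of `κ` used. -/
lemma mu_mem : σ₀⁻¹ κ ∈ K ⊔ k ⊔ k' := stableM H _ H.κE

lemma mu_ne : σ₀⁻¹ κ ≠ 0 := by simpa using H.κ0

lemma s02F : Fixes F (σ₀ * σ₀) := quad H.deg_F (s0F H) (s0F H)

lemma cmu : c (σ₀⁻¹ κ) = (σ₀⁻¹ κ)⁻¹ := by
  have h1 : Fixes F (σ₀ * σ₀)⁻¹ := (s02F H).inv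
  have h2 : (σ₀ * σ₀)⁻¹ (c (σ₀ κ)) = c ((σ₀ * σ₀)⁻¹ (σ₀ κ)) :=
    commM H h1 (cF H) (stableM H σ₀ H.κE)
  have h3 : (σ₀ * σ₀)⁻¹ (σ₀ κ) = σ₀⁻¹ κ := by
    rw [← AlgEquiv.mul_apply]
    congr 1
    group
  have h4 : (σ₀ * σ₀)⁻¹ (c (σ₀ κ)) = σ₀⁻¹ (c₀ κ) := by
    have e : (σ₀ * σ₀)⁻¹ * (c * σ₀) = σ₀⁻¹ * (σ₀⁻¹ * c * σ₀) := by group
    rw [H.D.c₀_eq]
    exact congrArg (fun g : GQ => g κ) e
  rw [← map_inv₀, ← H.cκ, ← h4, h2, h3]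

lemma eta_mem : σ₀⁻¹ κ * c₀ (σ₀⁻¹ κ) ∈ K ⊔ k ⊔ k' :=
  mul_mem (mu_mem H) (stableM H _ (mu_mem H))

lemma eta_ne : σ₀⁻¹ κ * c₀ (σ₀⁻¹ κ) ≠ 0 := mul_ne_zero (mu_ne H) (by simpa using H.κ0)

lemma c_eta : c (σ₀⁻¹ κ * c₀ (σ₀⁻¹ κ)) = (σ₀⁻¹ κ * c₀ (σ₀⁻¹ κ))⁻¹ := by
  rw [map_mul, cmu H, commM H (cF H) (c₀F H) (mu_mem H), cmu H, map_inv₀, mul_inv]

lemma c₀_eta : c₀ (σ₀⁻¹ κ * c₀ (σ₀⁻¹ κ)) = σ₀⁻¹ κ * c₀ (σ₀⁻¹ κ) := by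
  rw [map_mul, ← AlgEquiv.mul_apply c₀ c₀, H.D.cc₀, AlgEquiv.one_apply, mul_comm]

lemma eta_H : σ₀⁻¹ κ * c₀ (σ₀⁻¹ κ) ∈ K ⊔ k' := by
  apply mem_of_fixed
  intro σ hσ
  have h := fixes_sup.1 hσ
  by_cases hk : Fixes k σ
  · exact fixes_sup.2 ⟨fixes_sup.2 ⟨h.1, hk⟩, h.2⟩ _ (eta_mem H)
  · have h1 : Fixes (K ⊔ k ⊔ k') (σ * c₀) := fixes_sup.2 ⟨fixes_sup.2 ⟨h.1.mul H.D.c₀_K,
      quad H.deg_k hk H.D.c₀_k⟩, h.2.mul (c₀k' H)⟩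
    have h2 := h1 _ (eta_mem H)
    rwa [AlgEquiv.mul_apply, c₀_eta H] at h2

lemma eta_val {g : GQ} (hg : Fixes (K ⊔ k) g) :
    ι (σ₀ (g (σ₀⁻¹ κ * c₀ (σ₀⁻¹ κ)))) = ((‖ι (g κ)‖ ^ 2 : ℝ) : ℂ) := by
  haveI : NeZero f := ⟨H.f0⟩
  have h0 : c₀ (σ₀⁻¹ κ) = (σ₀⁻¹ * c) κ := by
    rw [H.D.c₀_eq]
    simp only [← AlgEquiv.mul_apply]
    congr 1
    group
  have h1 : g (σ₀⁻¹ κ) = σ₀⁻¹ (g κ) := (comm_E H.prim H.normal H.sub hg σ₀⁻¹ H.κE).symm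
  have h2 : g ((σ₀⁻¹ * c) κ) = (σ₀⁻¹ * c) (g κ) :=
    (comm_E H.prim H.normal H.sub hg (σ₀⁻¹ * c) H.κE).symm
  rw [map_mul, h0, h1, h2, AlgEquiv.mul_apply, map_mul, ← AlgEquiv.mul_apply σ₀ σ₀⁻¹,
    ← AlgEquiv.mul_apply σ₀ σ₀⁻¹, mul_inv_cancel, AlgEquiv.one_apply, AlgEquiv.one_apply, map_mul,
    H.D.conj, Complex.mul_conj, Complex.normSq_eq_norm_sq]

lemma eta_act {τ g : GQ} (hτ : Fixes F τ) (hg : Fixes (K ⊔ k) g) (hgk : ∀ x ∈ k', g x = τ x) :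
    τ (σ₀⁻¹ κ * c₀ (σ₀⁻¹ κ)) = g (σ₀⁻¹ κ * c₀ (σ₀⁻¹ κ)) ∧ Fixes K τ ∨
      τ (σ₀⁻¹ κ * c₀ (σ₀⁻¹ κ)) = (g (σ₀⁻¹ κ * c₀ (σ₀⁻¹ κ)))⁻¹ ∧ ¬ Fixes K τ := by
  have hgK : Fixes K g := (fixes_sup.1 hg).1
  by_cases h : Fixes K τ
  · left
    refine ⟨?_, h⟩
    exact agree_sup (fun x hx => by rw [h x hx, hgK x hx]) (fun x hx => (hgk x hx).symm) _ (eta_H H)
  · right
    refine ⟨?_, h⟩
    have h1 : Fixes K (τ * c) := quadRel H.le H.deg_F H.deg_K hτ (cF H) h (cK H)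
    have h2 : (τ * c) (σ₀⁻¹ κ * c₀ (σ₀⁻¹ κ)) = g (σ₀⁻¹ κ * c₀ (σ₀⁻¹ κ)) := by
      refine agree_sup (fun x hx => by rw [h1 x hx, hgK x hx]) (fun x hx => ?_) _ (eta_H H)
      rw [AlgEquiv.mul_apply, ck' H x hx, hgk x hx]
    rw [← h2, AlgEquiv.mul_apply, c_eta H, map_inv₀, inv_inv]

lemma exists_g {τ : GQ} (hτ : Fixes F τ) : ∃ g : GQ, Fixes (K ⊔ k) g ∧ ∀ x ∈ k', g x = τ x := by
  have key : ∀ τ : GQ, Fixes K τ → ∃ g : GQ, Fixes (K ⊔ k) g ∧ ∀ x ∈ k', g x = τ x := by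
    intro τ h
    by_cases hk : Fixes k τ
    · exact ⟨τ, fixes_sup.2 ⟨h, hk⟩, fun _ _ => rfl⟩
    · exact ⟨τ * c₀, fixes_sup.2 ⟨h.mul H.D.c₀_K, quad H.deg_k hk H.D.c₀_k⟩, fun x hx => by
        rw [AlgEquiv.mul_apply, c₀k' H x hx]⟩
  by_cases h : Fixes K τ
  · exact key τ h
  · obtain ⟨g, h1, h2⟩ := key (τ * c) (quadRel H.le H.deg_F H.deg_K hτ (cF H) h (cK H))
    exact ⟨g, h1, fun x hx => by rw [h2 x hx, AlgEquiv.mul_apply, ck' H x hx]⟩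

lemma norm_off {ρ : GQ} (h : ¬ Fixes F ρ) : ‖ι (ρ κ)‖ = 1 := by
  by_cases hk : Fixes k ρ
  · exact H.one ρ hk h
  · rw [← norm_c H]
    refine H.one _ (quad H.deg_k (ck H) hk) fun h1 => h ?_
    have h2 := (cF H).inv.mul h1
    rwa [inv_mul_cancel_left] at h2

lemma eta_off {σ : GQ} (hσ : Fixes F σ) : ‖ι (σ (σ₀⁻¹ κ * c₀ (σ₀⁻¹ κ)))‖ = 1 := by
  have h1 : ∀ τ : GQ, Fixes F τ → ‖ι (τ (σ₀⁻¹ κ))‖ = 1 := by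
    intro τ hτ
    have h2 : ¬ Fixes F (τ * σ₀⁻¹) := by
      intro h
      apply s0F H
      have h3 := h.inv.mul hτ
      have h4 : (τ * σ₀⁻¹)⁻¹ * τ = σ₀ := by group
      rwa [h4] at h3
    exact norm_off H h2
  rw [map_mul, map_mul, norm_mul, h1 σ hσ, one_mul]
  exact h1 (σ * c₀) (hσ.mul (c₀F H))

lemma nrm_inv (σ : GQ) : ‖ι ((σ * (c * c₀)) κ)‖ * ‖ι (σ κ)‖ = 1 := by
  by_cases hk : Fixes k σ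
  · exact H.inv σ hk
  · have h1 := H.inv (c * σ) (quad H.deg_k (ck H) hk)
    rwa [mul_assoc c σ, norm_c H, norm_c H] at h1

lemma exists_delta : ∃ δ : Qbar, (∃ n : ℕ, 0 < n ∧ δ ^ n = 1) ∧ c κ = δ * κ := by
  refine ⟨c κ / κ, root_of_norm (ι := ι) ?_ ?_, by rw [div_mul_cancel₀ _ H.κ0]⟩
  · rw [div_eq_mul_inv]
    exact (H.κi.map (c : Qbar →+* Qbar).toIntAlgHom).mul H.κi'
  · intro σ
    have h1 : c κ = ((c * c₀) κ)⁻¹ := by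
      rw [AlgEquiv.mul_apply, H.cκ, map_inv₀, inv_inv]
    have h2 := nrm_inv H σ
    rw [AlgEquiv.mul_apply] at h2
    have h3 : ‖ι (σ κ)‖ ≠ 0 := by
      rw [norm_ne_zero_iff, Ne, map_eq_zero]
      simpa using H.κ0
    rw [map_div₀, map_div₀, norm_div, h1, map_inv₀, map_inv₀, norm_inv]
    rw [div_eq_iff h3, one_mul]
    exact inv_eq_of_mul_eq_one_right h2

lemma eta_root : AbelianRoot F 2 (σ₀⁻¹ κ * c₀ (σ₀⁻¹ κ)) := by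
  obtain ⟨δ, ⟨n, hn, hδ⟩, hc⟩ := exists_delta H
  have h0 : c₀ (σ₀⁻¹ κ) = σ₀⁻¹ (c κ) := by
    rw [H.D.c₀_eq]
    simp only [← AlgEquiv.mul_apply]
    congr 1
    group
  have h1 : σ₀⁻¹ κ * c₀ (σ₀⁻¹ κ) = σ₀⁻¹ δ * (σ₀⁻¹ κ) ^ 2 := by
    rw [h0, hc, map_mul]
    ring
  intro lam hlam σ τ hσ hτ
  have hξ : (lam / σ₀⁻¹ κ) ^ (2 * n) = 1 := by
    rw [pow_mul, div_pow, hlam, h1, mul_div_assoc, div_self (pow_ne_zero _ (mu_ne H)), mul_one,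
      ← map_pow, hδ, map_one]
  set ξ : Qbar := lam / σ₀⁻¹ κ with hξdef
  have hl : lam = ξ * σ₀⁻¹ κ := by rw [hξdef, div_mul_cancel₀ _ (mu_ne H)]
  have hpos : 0 < 2 * n := by omega
  obtain ⟨a, -, ha⟩ := exists_pow hpos σ
  obtain ⟨b, -, hb⟩ := exists_pow hpos τ
  have e1 : σ (τ ξ) = τ (σ ξ) := by
    rw [hb ξ hξ, ha ξ hξ, map_pow, map_pow, ha ξ hξ, hb ξ hξ, ← pow_mul, ← pow_mul, mul_comm]
  rw [hl, map_mul, map_mul, map_mul, map_mul, e1, commM H hσ hτ (mu_mem H)]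

lemma eta_integral : IsIntegral ℤ (σ₀⁻¹ κ * c₀ (σ₀⁻¹ κ)) := by
  have h1 : ∀ g : GQ, IsIntegral ℤ (g κ) := fun g => H.κi.map (g : Qbar →+* Qbar).toIntAlgHom
  exact (h1 σ₀⁻¹).mul (h1 (c₀ * σ₀⁻¹))

lemma eta_integral' : IsIntegral ℤ (σ₀⁻¹ κ * c₀ (σ₀⁻¹ κ))⁻¹ := by
  have h1 : ∀ g : GQ, IsIntegral ℤ (g κ⁻¹) := fun g => H.κi'.map (g : Qbar →+* Qbar).toIntAlgHom
  rw [mul_inv, ← map_inv₀, ← map_inv₀, ← map_inv₀]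
  exact (h1 σ₀⁻¹).mul (h1 (c₀ * σ₀⁻¹))

end

end Pool.Agent.W2helper58.SR
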